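import Mathlib

/-!
Calculus lemmas for midpoint-rule (Euler-Maclaurin type) estimates of real powers.
-/

set_option autoImplicit false

namespace Pool.Agent.Lib.MP_819a4a_pr

open Set

noncomputable def phi (p h : ℝ) : ℝ := (1 + h) ^ p - (1 - h) ^ p

noncomputable def chi (p h : ℝ) : ℝ := (1 + h) ^ p + (1 - h) ^ p

theorem nonneg_of_deriv {f f' : ℝ → ℝ} {a : ℝ} (hd : ∀ x ∈ Icc 0 a, HasDerivAt f (f' x) x)
    (h0 : 0 ≤ f 0) (hp : ∀ x ∈ Icc 0 a, 0 ≤ f' x) : ∀ x ∈ Icc 0 a, 0 ≤ f x := by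
  have hm : MonotoneOn f (Icc 0 a) := by
    apply monotoneOn_of_deriv_nonneg (convex_Icc 0 a)
    · exact fun x hx => (hd x hx).continuousAt.continuousWithinAt
    · exact fun x hx => (hd x (interior_subset hx)).differentiableAt.differentiableWithinAt
    · intro x hx
      rw [(hd x (interior_subset hx)).deriv]
      exact hp x (interior_subset hx)
  intro x hx
  exact h0.trans (hm ⟨le_rfl, hx.1.trans hx.2⟩ hx hx.1)

theorem hasDerivAt_plus (p : ℝ) {h : ℝ} (hh : h ∈ Icc (0 : ℝ) (1 / 2)) :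
    HasDerivAt (fun h : ℝ => (1 + h) ^ p) (p * (1 + h) ^ (p - 1)) h := by
  have := ((hasDerivAt_id h).const_add 1).rpow_const (p := p)
    (Or.inl (by have := hh.1; simp only [id]; linarith))
  simpa using this

theorem hasDerivAt_minus (p : ℝ) {h : ℝ} (hh : h ∈ Icc (0 : ℝ) (1 / 2)) :
    HasDerivAt (fun h : ℝ => (1 - h) ^ p) (-(p * (1 - h) ^ (p - 1))) h := by
  have := ((hasDerivAt_id h).const_sub 1).rpow_const (p := p)
    (Or.inl (by have := hh.2; simp only [id]; linarith))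
  refine HasDerivAt.congr_deriv this ?_
  simp

theorem hasDerivAt_phi (p : ℝ) {h : ℝ} (hh : h ∈ Icc (0 : ℝ) (1 / 2)) :
    HasDerivAt (phi p) (p * chi (p - 1) h) h := by
  refine HasDerivAt.congr_deriv ((hasDerivAt_plus p hh).sub (hasDerivAt_minus p hh)) ?_
  unfold chi; ring

theorem hasDerivAt_chi (p : ℝ) {h : ℝ} (hh : h ∈ Icc (0 : ℝ) (1 / 2)) :
    HasDerivAt (chi p) (p * phi (p - 1) h) h := by
  refine HasDerivAt.congr_deriv ((hasDerivAt_plus p hh).add (hasDerivAt_minus p hh)) ?_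
  unfold phi; ring

@[simp] theorem phi_zero (p : ℝ) : phi p 0 = 0 := by simp [phi]

@[simp] theorem chi_zero (p : ℝ) : chi p 0 = 2 := by simp [chi]; norm_num

theorem phi_nonneg {p h : ℝ} (hp : 0 ≤ p) (hh : h ∈ Icc (0 : ℝ) (1 / 2)) : 0 ≤ phi p h := by
  have := Real.rpow_le_rpow (x := 1 - h) (y := 1 + h) (by linarith [hh.2]) (by linarith [hh.1]) hp
  unfold phi; linarith

theorem phi_nonpos {p h : ℝ} (hp : p ≤ 0) (hh : h ∈ Icc (0 : ℝ) (1 / 2)) : phi p h ≤ 0 := by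
  have := Real.rpow_le_rpow_of_nonpos (x := 1 - h) (y := 1 + h) (by linarith [hh.2])
    (by linarith [hh.1]) hp
  unfold phi; linarith

theorem two_mul_le_phi {p h : ℝ} (hp : 1 ≤ p) (hh : h ∈ Icc (0 : ℝ) (1 / 2)) :
    2 * h ≤ phi p h := by
  have h1 : (1 + h) ^ (1 : ℝ) ≤ (1 + h) ^ p :=
    Real.rpow_le_rpow_of_exponent_le (by linarith [hh.1]) hp
  have h2 : (1 - h) ^ p ≤ (1 - h) ^ (1 : ℝ) :=
    Real.rpow_le_rpow_of_exponent_ge (by linarith [hh.2]) (by linarith [hh.1]) hp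
  rw [Real.rpow_one] at h1 h2
  unfold phi; linarith

theorem chi_le_two {q h : ℝ} (h0 : 0 ≤ q) (h1 : q ≤ 1) (hh : h ∈ Icc (0 : ℝ) (1 / 2)) :
    chi q h ≤ 2 := by
  have a := rpow_one_add_le_one_add_mul_self (s := h) (by linarith [hh.1]) h0 h1
  have b := rpow_one_add_le_one_add_mul_self (s := -h) (by linarith [hh.2]) h0 h1
  unfold chi
  rw [← sub_eq_add_neg] at b
  linarith

theorem two_le_chi {q h : ℝ} (h1 : 1 ≤ q) (hh : h ∈ Icc (0 : ℝ) (1 / 2)) :
    2 ≤ chi q h := by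
  have a := one_add_mul_self_le_rpow_one_add (s := h) (by linarith [hh.1]) h1
  have b := one_add_mul_self_le_rpow_one_add (s := -h) (by linarith [hh.2]) h1
  unfold chi
  rw [← sub_eq_add_neg] at b
  linarith

theorem chainA {σ q : ℝ} (hq : 0 ≤ q) (H : ∀ h ∈ Icc (0 : ℝ) (1 / 2), 0 ≤ σ * (chi q h - 2)) :
    ∀ h ∈ Icc (0 : ℝ) (1 / 2),
      0 ≤ σ * (phi (q + 3) h - 2 * (q + 3) * h - (q + 3) * (q + 2) * (q + 1) * h ^ 3 / 3) := by
  have H1 : ∀ h ∈ Icc (0 : ℝ) (1 / 2), 0 ≤ σ * (phi (q + 1) h - 2 * (q + 1) * h) := by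
    apply nonneg_of_deriv (f' := fun h => (q + 1) * (σ * (chi q h - 2)))
    · intro h hh
      refine HasDerivAt.congr_deriv (((hasDerivAt_phi (q + 1) hh).sub
        ((hasDerivAt_id h).const_mul (2 * (q + 1)))).const_mul σ) ?_
      rw [add_sub_cancel_right]; ring
    · simp
    · intro h hh
      exact mul_nonneg (by linarith) (H h hh)
  have H2 : ∀ h ∈ Icc (0 : ℝ) (1 / 2),
      0 ≤ σ * (chi (q + 2) h - 2 - (q + 2) * (q + 1) * h ^ 2) := by
    apply nonneg_of_deriv (f' := fun h => (q + 2) * (σ * (phi (q + 1) h - 2 * (q + 1) * h)))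
    · intro h hh
      refine HasDerivAt.congr_deriv ((((hasDerivAt_chi (q + 2) hh).sub_const 2).sub
        ((hasDerivAt_pow 2 h).const_mul ((q + 2) * (q + 1)))).const_mul σ) ?_
      rw [show q + 2 - 1 = q + 1 by ring]; simp; ring
    · simp
    · intro h hh
      exact mul_nonneg (by linarith) (H1 h hh)
  apply nonneg_of_deriv
    (f' := fun h => (q + 3) * (σ * (chi (q + 2) h - 2 - (q + 2) * (q + 1) * h ^ 2)))
  · intro h hh
    refine HasDerivAt.congr_deriv ((((hasDerivAt_phi (q + 3) hh).sub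
      ((hasDerivAt_id h).const_mul (2 * (q + 3)))).sub
      (((hasDerivAt_pow 3 h).const_mul ((q + 3) * (q + 2) * (q + 1))).div_const 3)).const_mul σ) ?_
    rw [show q + 3 - 1 = q + 2 by ring]; simp; ring
  · simp
  · intro h hh
    exact mul_nonneg (by linarith) (H2 h hh)

theorem chainW {q : ℝ} (hq : -2 ≤ q) (H : ∀ h ∈ Icc (0 : ℝ) (1 / 2), 0 ≤ (q + 1) * phi q h) :
    ∀ h ∈ Icc (0 : ℝ) (1 / 2),
      0 ≤ (q + 4) * (q + 3) * h ^ 2 * phi (q + 2) h / 6 - phi (q + 4) h + 2 * (q + 4) * h := by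
  have e1 : q + 1 - 1 = q := by ring
  have e2 : q + 2 - 1 = q + 1 := by ring
  have e3 : q + 3 - 1 = q + 2 := by ring
  have e4 : q + 4 - 1 = q + 3 := by ring
  have H1 : ∀ h ∈ Icc (0 : ℝ) (1 / 2), 0 ≤ (q + 2) * (h * chi (q + 1) h) - phi (q + 2) h := by
    apply nonneg_of_deriv (f' := fun h => (q + 2) * h * ((q + 1) * phi q h))
    · intro h hh
      refine HasDerivAt.congr_deriv ((((hasDerivAt_id h).mul (hasDerivAt_chi (q + 1) hh)).const_mul
        (q + 2)).sub (hasDerivAt_phi (q + 2) hh)) ?_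
      rw [e1, e2]; simp; ring
    · simp
    · intro h hh
      exact mul_nonneg (mul_nonneg (by linarith) hh.1) (H h hh)
  have H2 : ∀ h ∈ Icc (0 : ℝ) (1 / 2), 0 ≤ (q + 3) * (h * phi (q + 2) h) / 3 +
      (q + 3) * (q + 2) * (h ^ 2 * chi (q + 1) h) / 6 - chi (q + 3) h + 2 := by
    apply nonneg_of_deriv (f' := fun h => (q + 3) *
      (2 / 3 * ((q + 2) * (h * chi (q + 1) h) - phi (q + 2) h) +
        (q + 2) * h ^ 2 * ((q + 1) * phi q h) / 6))
    · intro h hh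
      refine HasDerivAt.congr_deriv (((((((hasDerivAt_id h).mul
        (hasDerivAt_phi (q + 2) hh)).const_mul (q + 3)).div_const 3).add
        ((((hasDerivAt_pow 2 h).mul (hasDerivAt_chi (q + 1) hh)).const_mul
          ((q + 3) * (q + 2))).div_const 6)).sub (hasDerivAt_chi (q + 3) hh)).add_const 2) ?_
      rw [e1, e2, e3]; simp; ring
    · simp
    · intro h hh
      have a := H1 h hh
      have b : 0 ≤ (q + 2) * h ^ 2 * ((q + 1) * phi q h) :=
        mul_nonneg (mul_nonneg (by linarith) (sq_nonneg h)) (H h hh)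
      exact mul_nonneg (by linarith) (by linarith)
  have H3 : ∀ h ∈ Icc (0 : ℝ) (1 / 2),
      0 ≤ (q + 4) * (q + 3) * (h ^ 2 * phi (q + 2) h) / 6 - phi (q + 4) h + 2 * (q + 4) * h := by
    apply nonneg_of_deriv (f' := fun h => (q + 4) * ((q + 3) * (h * phi (q + 2) h) / 3 +
      (q + 3) * (q + 2) * (h ^ 2 * chi (q + 1) h) / 6 - chi (q + 3) h + 2))
    · intro h hh
      refine HasDerivAt.congr_deriv ((((((hasDerivAt_pow 2 h).mul
        (hasDerivAt_phi (q + 2) hh)).const_mul ((q + 4) * (q + 3))).div_const 6).sub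
        (hasDerivAt_phi (q + 4) hh)).add ((hasDerivAt_id h).const_mul (2 * (q + 4)))) ?_
      rw [e2, e4]; simp; ring
    · simp
    · intro h hh
      exact mul_nonneg (by linarith) (H2 h hh)
  intro h hh
  have := H3 h hh
  linarith [this]

theorem half_mem {x : ℝ} (hx : 1 ≤ x) : 1 / (2 * x) ∈ Icc (0 : ℝ) (1 / 2) :=
  ⟨by positivity, one_div_le_one_div_of_le (by norm_num) (by linarith)⟩

theorem diff_eq (p : ℝ) {x : ℝ} (hx : 1 ≤ x) :
    (x + 1 / 2) ^ p - (x - 1 / 2) ^ p = x ^ p * phi p (1 / (2 * x)) := by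
  have hx0 : 0 < x := by linarith
  have hh := half_mem hx
  unfold phi
  rw [mul_sub, ← Real.mul_rpow hx0.le (by linarith [hh.1]),
    ← Real.mul_rpow hx0.le (by linarith [hh.2])]
  congr 2 <;> field_simp

theorem step1 {r x : ℝ} (hr : (1 ≤ r ∧ r ≤ 2) ∨ 3 ≤ r) (hx : 1 ≤ x) :
    (x + 1 / 2) ^ (r + 1) - (x - 1 / 2) ^ (r + 1) ≤
      (r + 1) * x ^ r + (r + 1) * r / 24 * ((x + 1 / 2) ^ (r - 1) - (x - 1 / 2) ^ (r - 1)) := by
  have hx0 : 0 < x := by linarith
  have := chainW (q := r - 3) (by rcases hr with h | h <;> linarith [h]) (by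
    intro h hh
    rcases hr with hr | hr
    · exact mul_nonneg_of_nonpos_of_nonpos (by linarith [hr.2]) (phi_nonpos (by linarith [hr.2]) hh)
    · exact mul_nonneg (by linarith) (phi_nonneg (by linarith) hh)) _ (half_mem hx)
  rw [show r - 3 + 4 = r + 1 by ring, show r - 3 + 3 = r by ring,
    show r - 3 + 2 = r - 1 by ring] at this
  rw [diff_eq _ hx, diff_eq _ hx, Real.rpow_add_one hx0.ne', Real.rpow_sub_one hx0.ne']
  have hp : 0 < x ^ r := Real.rpow_pos_of_pos hx0 r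
  have key := mul_nonneg (mul_pos hp hx0).le this
  have e : x ^ r * x * ((r + 1) * r * (1 / (2 * x)) ^ 2 * phi (r - 1) (1 / (2 * x)) / 6 -
      phi (r + 1) (1 / (2 * x)) + 2 * (r + 1) * (1 / (2 * x))) =
      (r + 1) * x ^ r + (r + 1) * r / 24 * (x ^ r / x * phi (r - 1) (1 / (2 * x))) -
        x ^ r * x * phi (r + 1) (1 / (2 * x)) := by
    field_simp; ring
  linarith

theorem stepA {σ r x : ℝ} (hr : 2 ≤ r)
    (H : ∀ h ∈ Icc (0 : ℝ) (1 / 2), 0 ≤ σ * (chi (r - 2) h - 2)) (hx : 1 ≤ x) :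
    0 ≤ σ * ((x + 1 / 2) ^ (r + 1) - (x - 1 / 2) ^ (r + 1) -
      (r + 1) * x ^ r - (r + 1) * r * (r - 1) / 24 * x ^ (r - 2)) := by
  have hx0 : 0 < x := by linarith
  have := chainA (q := r - 2) (by linarith) H _ (half_mem hx)
  rw [show r - 2 + 3 = r + 1 by ring, show r - 2 + 2 = r by ring,
    show r - 2 + 1 = r - 1 by ring] at this
  have e2 : x ^ (r - 2) = x ^ r / x ^ 2 := by
    rw [Real.rpow_sub hx0]; norm_num
  rw [diff_eq _ hx, Real.rpow_add_one hx0.ne', e2]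
  have hp : 0 < x ^ r := Real.rpow_pos_of_pos hx0 r
  have key := mul_nonneg (mul_pos hp hx0).le this
  refine key.trans (le_of_eq ?_)
  field_simp; ring

theorem step2 {r x : ℝ} (hr : 2 ≤ r) (hr' : r ≤ 3) (hx : 1 ≤ x) :
    (x + 1 / 2) ^ (r + 1) - (x - 1 / 2) ^ (r + 1) ≤
      (r + 1) * x ^ r +
        (r + 1) * ((r - 1) * r) / 24 * ((x + 1 / 2) ^ (r - 1) - (x - 1 / 2) ^ (r - 1)) := by
  have hx0 : 0 < x := by linarith
  have h1 := stepA (σ := -1) hr (fun h hh => by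
    have := chi_le_two (q := r - 2) (by linarith) (by linarith) hh
    linarith) hx
  have h2 : x ^ (r - 2) ≤ (x + 1 / 2) ^ (r - 1) - (x - 1 / 2) ^ (r - 1) := by
    rw [diff_eq _ hx]
    have := two_mul_le_phi (p := r - 1) (by linarith) (half_mem hx)
    have e : x ^ (r - 2) = x ^ (r - 1) * (2 * (1 / (2 * x))) := by
      rw [show r - 2 = r - 1 - 1 by ring, Real.rpow_sub_one hx0.ne']
      field_simp
    rw [e]
    exact mul_le_mul_of_nonneg_left this (Real.rpow_pos_of_pos hx0 _).le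
  have h3 : 0 ≤ (r + 1) * ((r - 1) * r) / 24 := by
    have : 0 ≤ r - 1 := by linarith
    have : 0 ≤ r := by linarith
    positivity
  have := mul_le_mul_of_nonneg_left h2 h3
  nlinarith

theorem step3 {r x : ℝ} (hr : 3 ≤ r) (hx : 1 ≤ x) :
    (r + 1) * x ^ r + (r + 1) * r * (r - 1) / 24 * x ^ (r - 2) ≤
      (x + 1 / 2) ^ (r + 1) - (x - 1 / 2) ^ (r + 1) := by
  have h1 := stepA (σ := 1) (r := r) (by linarith) (fun h hh => by
    have := two_le_chi (q := r - 2) (by linarith) hh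
    linarith) hx
  linarith

end Pool.Agent.Lib.MP_819a4a_pr
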