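import Mathlib

set_option autoImplicit false

namespace Pool.Agent.Lib.MP_819a4a_pr

open scoped ENNReal

/-- `S k r = 1^r + ... + k^r`. -/
noncomputable def S (k : ℕ) (r : ℝ) : ℝ := ∑ i ∈ Finset.Icc 1 k, (i : ℝ) ^ r

/-- `g k r = (2k-1)^r / S k r`. -/
noncomputable def g (k : ℕ) (r : ℝ) : ℝ := (2 * (k : ℝ) - 1) ^ r / S k r

/-- Metropolis-Hastings acceptance probability of the move from `x` to `x + z`. -/
noncomputable def accept (π φ : PMF ℤ) (x z : ℤ) : ℝ≥0∞ :=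
  if π x * φ z = 0 then 1 else min 1 (π (x + z) * φ (-z) / (π x * φ z))

theorem accept_le_one (π φ : PMF ℤ) (x z : ℤ) : accept π φ x z ≤ 1 := by
  unfold accept
  split_ifs
  · exact le_rfl
  · exact min_le_left _ _

/-- A coin showing `true` with probability `p`. -/
noncomputable def coin (p : ℝ≥0∞) (hp : p ≤ 1) : PMF Bool :=
  PMF.ofFintype (fun b => cond b p (1 - p)) (by simp [hp])

/-- Law of the next state of the chain started at `x`. -/
noncomputable def step (π φ : PMF ℤ) (x : ℤ) : PMF ℤ :=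
  φ.bind fun z => (coin (accept π φ x z) (accept_le_one π φ x z)).map
    fun b => cond b (x + z) x

/-- Joint law of `(X 0, X 1)` for the stationary chain. -/
noncomputable def joint (π φ : PMF ℤ) : PMF (ℤ × ℤ) :=
  π.bind fun x => (step π φ x).map fun y => (x, y)

/-- `E |X 0|^r`. -/
noncomputable def absMoment (r : ℝ) (π : PMF ℤ) : ℝ≥0∞ :=
  ∫⁻ x, ENNReal.ofReal (|(x : ℝ)| ^ r) ∂π.toMeasure

/-- `E |X 1 - X 0|^r`. -/
noncomputable def jumpMoment (r : ℝ) (π φ : PMF ℤ) : ℝ≥0∞ :=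
  ∫⁻ p, ENNReal.ofReal (|(p.2 : ℝ) - (p.1 : ℝ)| ^ r) ∂(joint π φ).toMeasure

/-- Admissible pairs. -/
def Admissible (r : ℝ) (π φ : PMF ℤ) : Prop :=
  (∀ x, π x = π (-x)) ∧ (∀ x y : ℤ, 0 ≤ x → x ≤ y → π y ≤ π x) ∧ (∀ x, π ≠ PMF.pure x) ∧
    absMoment r π < ⊤ ∧ (∀ z, φ z = φ (-z)) ∧ ∀ z, φ z ≠ 0 → Odd z

/-- The extremal ratio `s(r)`. -/
noncomputable def s (r : ℝ) : ℝ≥0∞ :=
  ⨆ (π : PMF ℤ) (φ : PMF ℤ) (_ : Admissible r π φ), jumpMoment r π φ / absMoment r π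

end Pool.Agent.Lib.MP_819a4a_pr
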