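import Mathlib
import Pool.Agent.Lib.MP_819a4a_pr.Defs
import Pool.Agent.Lib.MP_819a4a_pr.Calc

/-!
Bounds for power sums.
-/

set_option autoImplicit false

namespace Pool.Agent.Lib.MP_819a4a_pr

@[simp] theorem S_zero (r : ℝ) : S 0 r = 0 := by simp [S]

theorem S_succ (k : ℕ) (r : ℝ) : S (k + 1) r = S k r + ((k : ℝ) + 1) ^ r := by
  unfold S
  rw [Finset.sum_Icc_succ_top (by omega)]
  push_cast
  rfl

theorem S_eq_range (k : ℕ) (r : ℝ) : S k r = ∑ i ∈ Finset.range k, ((i : ℝ) + 1) ^ r := by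
  induction k with
  | zero => simp
  | succ k ih => rw [S_succ, Finset.sum_range_succ, ih]

theorem S_nonneg (k : ℕ) (r : ℝ) : 0 ≤ S k r :=
  Finset.sum_nonneg fun _ _ => by positivity

theorem S_pos {k : ℕ} (hk : 1 ≤ k) (r : ℝ) : 0 < S k r := by
  obtain ⟨k, rfl⟩ : ∃ j, k = j + 1 := ⟨k - 1, by omega⟩
  rw [S_succ]
  have := S_nonneg k r
  positivity

theorem S_lower {r c : ℝ}
    (H : ∀ x : ℝ, 1 ≤ x → (x + 1 / 2) ^ (r + 1) - (x - 1 / 2) ^ (r + 1) ≤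
      (r + 1) * x ^ r + c * ((x + 1 / 2) ^ (r - 1) - (x - 1 / 2) ^ (r - 1))) (k : ℕ) :
    ((k : ℝ) + 1 / 2) ^ (r + 1) - (1 / 2 : ℝ) ^ (r + 1) ≤
      (r + 1) * S k r + c * (((k : ℝ) + 1 / 2) ^ (r - 1) - (1 / 2 : ℝ) ^ (r - 1)) := by
  induction k with
  | zero => simp
  | succ k ih =>
    have := H ((k : ℝ) + 1) (by linarith [Nat.cast_nonneg (α := ℝ) k])
    rw [show (k : ℝ) + 1 - 1 / 2 = k + 1 / 2 by ring] at this
    rw [S_succ]
    push_cast
    linarith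

theorem half_pow (r : ℝ) : (1 / 2 : ℝ) ^ (r + 1) = (1 / 2 : ℝ) ^ (r - 1) / 4 := by
  rw [show r + 1 = (r - 1) + 2 by ring, Real.rpow_add (by norm_num)]
  norm_num
  ring

theorem lower12 {r : ℝ} (h1 : 1 ≤ r) (h2 : r ≤ 2) (k : ℕ) :
    ((k : ℝ) + 1 / 2) ^ (r + 1) - ((k : ℝ) + 1 / 2) ^ (r - 1) / 4 ≤ (r + 1) * S k r := by
  have := S_lower (fun x hx => step1 (Or.inl ⟨h1, h2⟩) hx) k
  rw [half_pow] at this
  have h3 : (1 / 2 : ℝ) ^ (r - 1) ≤ ((k : ℝ) + 1 / 2) ^ (r - 1) :=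
    Real.rpow_le_rpow (by norm_num) (by linarith [Nat.cast_nonneg (α := ℝ) k]) (by linarith)
  have h4 : (r + 1) * r / 24 ≤ 1 / 4 := by nlinarith
  nlinarith

theorem lower23 {r : ℝ} (h1 : 2 ≤ r) (h2 : r ≤ 3) (k : ℕ) :
    ((k : ℝ) + 1 / 2) ^ (r + 1) - (r + 1) * ((r - 1) * r) / 24 * ((k : ℝ) + 1 / 2) ^ (r - 1) ≤
      (r + 1) * S k r := by
  have := S_lower (fun x hx => step2 h1 h2 hx) k
  rw [half_pow] at this
  have h3 : 0 < (1 / 2 : ℝ) ^ (r - 1) := by positivity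
  have h4 : 1 / 4 ≤ (r + 1) * ((r - 1) * r) / 24 := by nlinarith [mul_nonneg (sub_nonneg.2 h1) (sub_nonneg.2 h1)]
  nlinarith

theorem lower3 {r : ℝ} (h1 : 3 ≤ r) (k : ℕ) :
    ((k : ℝ) + 1 / 2) ^ (r + 1) - (r + 1) * r / 24 * ((k : ℝ) + 1 / 2) ^ (r - 1) ≤
      (r + 1) * S k r := by
  have := S_lower (fun x hx => step1 (Or.inr h1) hx) k
  rw [half_pow] at this
  have h3 : 0 < (1 / 2 : ℝ) ^ (r - 1) := by positivity
  have h4 : 1 / 4 ≤ (r + 1) * r / 24 := by nlinarith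
  nlinarith

theorem upper3 {r : ℝ} (h1 : 3 ≤ r) (k : ℕ) :
    (r + 1) * S k r + (r + 1) * r * (r - 1) / 24 * S k (r - 2) ≤ ((k : ℝ) + 1 / 2) ^ (r + 1) := by
  induction k with
  | zero => simp; positivity
  | succ k ih =>
    have := step3 h1 (x := (k : ℝ) + 1) (by linarith [Nat.cast_nonneg (α := ℝ) k])
    rw [show (k : ℝ) + 1 - 1 / 2 = k + 1 / 2 by ring] at this
    rw [S_succ, S_succ]
    push_cast
    linarith

theorem int_lower {p : ℝ} (hp : 0 ≤ p) (k : ℕ) : (k : ℝ) ^ (p + 1) ≤ (p + 1) * S k p := by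
  induction k with
  | zero => simp [Real.zero_rpow (show p + 1 ≠ 0 by linarith)]
  | succ k ih =>
    rw [S_succ]
    push_cast
    have hk : (0 : ℝ) < k + 1 := by positivity
    have h1 := one_add_mul_self_le_rpow_one_add (s := -(1 / ((k : ℝ) + 1))) (p := p + 1)
      (by rw [neg_le_neg_iff, div_le_one hk]; linarith [Nat.cast_nonneg (α := ℝ) k]) (by linarith)
    have e : (k : ℝ) = ((k : ℝ) + 1) * (1 + -(1 / ((k : ℝ) + 1))) := by field_simp; ring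
    have h2 : (k : ℝ) ^ (p + 1) = ((k : ℝ) + 1) ^ (p + 1) * (1 + -(1 / ((k : ℝ) + 1))) ^ (p + 1) := by
      rw [← Real.mul_rpow hk.le, ← e]
      rw [← sub_eq_add_neg, sub_nonneg, div_le_one hk]
      linarith [Nat.cast_nonneg (α := ℝ) k]
    have h3 := mul_le_mul_of_nonneg_left h1 (Real.rpow_pos_of_pos hk (p + 1)).le
    rw [← h2, Real.rpow_add_one hk.ne'] at h3
    rw [Real.rpow_add_one hk.ne']
    have e2 : ((k : ℝ) + 1) ^ p * (k + 1) * (1 + (p + 1) * -(1 / ((k : ℝ) + 1))) =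
        ((k : ℝ) + 1) ^ p * (k + 1) - (p + 1) * ((k : ℝ) + 1) ^ p := by field_simp; ring
    linarith

/-- Tangent line bound for convex powers. -/
theorem tangent_convex {r c x : ℝ} (hr : 1 ≤ r) (hc : 0 < c) (hx : 0 ≤ x) :
    c ^ r + r * c ^ (r - 1) * (x - c) ≤ x ^ r := by
  have h1 := one_add_mul_self_le_rpow_one_add (s := (x - c) / c) (p := r)
    (by rw [le_div_iff₀ hc]; linarith) hr
  have e : x = c * (1 + (x - c) / c) := by field_simp; ring
  have h0 : 0 ≤ 1 + (x - c) / c := by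
    have : 1 + (x - c) / c = x / c := by field_simp; ring
    rw [this]; positivity
  have h2 := mul_le_mul_of_nonneg_left h1 (Real.rpow_pos_of_pos hc r).le
  rw [← Real.mul_rpow hc.le h0, ← e] at h2
  rw [Real.rpow_sub_one hc.ne']
  refine le_trans (le_of_eq ?_) h2
  field_simp

/-- Tangent line bound for concave powers. -/
theorem tangent_concave {p c x : ℝ} (hp0 : 0 ≤ p) (hp : p ≤ 1) (hc : 0 < c) (hx : 0 ≤ x) :
    x ^ p ≤ c ^ p + p * c ^ (p - 1) * (x - c) := by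
  have h1 := rpow_one_add_le_one_add_mul_self (s := (x - c) / c) (p := p)
    (by rw [le_div_iff₀ hc]; linarith) hp0 hp
  have e : x = c * (1 + (x - c) / c) := by field_simp; ring
  have h0 : 0 ≤ 1 + (x - c) / c := by
    have : 1 + (x - c) / c = x / c := by field_simp; ring
    rw [this]; positivity
  have h2 := mul_le_mul_of_nonneg_left h1 (Real.rpow_pos_of_pos hc p).le
  rw [← Real.mul_rpow hc.le h0, ← e] at h2
  rw [Real.rpow_sub_one hc.ne']
  refine le_trans h2 (le_of_eq ?_)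
  field_simp

/-- Convexity in the exponent. -/
theorem rpow_le_chord {x r r₁ r₂ s : ℝ} (hx : 0 < x) (hs0 : 0 ≤ s) (hs1 : s ≤ 1)
    (hr : r = (1 - s) * r₁ + s * r₂) : x ^ r ≤ (1 - s) * x ^ r₁ + s * x ^ r₂ := by
  have := Real.geom_mean_le_arith_mean2_weighted (w₁ := 1 - s) (w₂ := s) (p₁ := x ^ r₁)
    (p₂ := x ^ r₂) (by linarith) hs0 (by positivity) (by positivity) (by ring)
  rw [← Real.rpow_mul hx.le, ← Real.rpow_mul hx.le, ← Real.rpow_add hx] at this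
  rw [hr, show (1 - s) * r₁ + s * r₂ = r₁ * (1 - s) + r₂ * s by ring]
  exact this

end Pool.Agent.Lib.MP_819a4a_pr
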