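import Mathlib
import Pool.Agent.Lib.MP_819a4a_pr.Sums

/-!
The cases `r ≤ 1`, the regime of large multiplicity, and monotonicity in `k` for multiplicity one.
-/

set_option autoImplicit false

namespace Pool.Agent.Lib.MP_819a4a_pr

open Finset

/-- Normalised reciprocal of `g`. -/
noncomputable def a (j : ℕ) (r : ℝ) : ℝ := S j r / ((j : ℝ) - 1 / 2) ^ r

theorem sum_min (y : ℕ) (k : ℕ) :
    (2 * (y : ℝ) + 1) * ((k : ℝ) - y) ≤ ∑ i ∈ range k, min ((i : ℝ) + 1) (2 * y + 1) := by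
  have key : ∀ k : ℕ, (k ≤ 2 * y + 1 → ∑ i ∈ range k, min ((i : ℝ) + 1) (2 * y + 1) =
      (k : ℝ) * (k + 1) / 2) ∧ (2 * y + 1 ≤ k → ∑ i ∈ range k, min ((i : ℝ) + 1) (2 * y + 1) =
      (2 * (y : ℝ) + 1) * ((k : ℝ) - y)) := by
    intro k
    induction k with
    | zero => simp
    | succ k ih =>
      rw [sum_range_succ]
      have h1 : k + 1 ≤ 2 * y + 1 → ∑ i ∈ range k, min ((i : ℝ) + 1) (2 * y + 1) +
          min ((k : ℝ) + 1) (2 * y + 1) = ((k + 1 : ℕ) : ℝ) * ((k + 1 : ℕ) + 1) / 2 := by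
        intro h
        rw [ih.1 (by omega), min_eq_left (by exact_mod_cast h)]
        push_cast; ring
      refine ⟨h1, fun h => ?_⟩
      rcases h.eq_or_lt with h | h
      · rw [h1 h.ge, ← h]; push_cast; ring
      · rw [ih.2 (by omega), min_eq_right (by exact_mod_cast h.le)]
        push_cast; ring
  rcases le_total k (2 * y + 1) with h | h
  · rw [(key k).1 h]
    obtain ⟨d, hd⟩ := Nat.exists_eq_add_of_le h
    have hd' : (2 * (y : ℝ) + 1) = k + d := by exact_mod_cast hd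
    have hy : (y : ℝ) = (k + d - 1) / 2 := by linarith
    rw [hd', hy]
    have : (0 : ℝ) ≤ (d : ℝ) * (d - 1) := by
      rcases Nat.eq_zero_or_pos d with h | h
      · simp [h]
      · have : (1 : ℝ) ≤ d := by exact_mod_cast h
        exact mul_nonneg (by linarith) (by linarith)
    nlinarith
  · rw [(key k).2 h]

theorem small_r {r : ℝ} (h0 : 0 ≤ r) (h1 : r ≤ 1) (y k : ℕ) :
    (2 * (y : ℝ) + 1) ^ r * ((k : ℝ) - y) ≤ S k r := by
  have hz : (0 : ℝ) < 2 * y + 1 := by positivity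
  have hterm : ∀ i ∈ range k, (2 * (y : ℝ) + 1) ^ (r - 1) * min ((i : ℝ) + 1) (2 * y + 1) ≤
      ((i : ℝ) + 1) ^ r := by
    intro i _
    have hi : (0 : ℝ) < i + 1 := by positivity
    rcases le_total ((i : ℝ) + 1) (2 * y + 1) with h | h
    · rw [min_eq_left h]
      have := Real.rpow_le_rpow_of_nonpos hi h (show r - 1 ≤ 0 by linarith)
      rw [Real.rpow_sub_one hi.ne', le_div_iff₀ hi] at this
      exact this
    · rw [min_eq_right h, Real.rpow_sub_one hz.ne', div_mul_cancel₀ _ hz.ne']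
      exact Real.rpow_le_rpow hz.le h h0
  rw [S_eq_range]
  refine le_trans ?_ (sum_le_sum hterm)
  rw [← mul_sum]
  refine le_trans (le_of_eq ?_) (mul_le_mul_of_nonneg_left (sum_min y k) (by positivity))
  rw [Real.rpow_sub_one hz.ne']
  field_simp

theorem sum_lin (m : ℕ) (A B : ℝ) :
    ∑ l ∈ range m, (A + B * (l : ℝ)) = m * A + B * ((m : ℝ) * (m - 1) / 2) := by
  induction m with
  | zero => simp
  | succ m ih => rw [sum_range_succ, ih]; push_cast; ring

theorem S_add (y m : ℕ) (r : ℝ) :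
    S (y + m) r = S y r + ∑ l ∈ range m, ((y : ℝ) + 1 + l) ^ r := by
  induction m with
  | zero => simp
  | succ m ih =>
    rw [← add_assoc, S_succ, ih, sum_range_succ]
    push_cast
    rw [show (y : ℝ) + m + 1 = y + 1 + m by ring]
    ring

theorem second_block {r v : ℝ} (hr : 1 ≤ r) (hv : 0 < v) (y m : ℕ) :
    ∑ l ∈ range m, (v ^ r + r * v ^ (r - 1) * ((y : ℝ) - l - v)) ≤ S y r := by
  induction y generalizing m with
  | zero =>
    rw [S_zero]
    apply sum_nonpos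
    intro l _
    have h1 := tangent_convex hr hv (le_refl 0)
    rw [Real.zero_rpow (by linarith)] at h1
    have h2 : 0 ≤ r * v ^ (r - 1) * (l : ℝ) := by positivity
    push_cast
    nlinarith
  | succ y ih =>
    cases m with
    | zero => simpa using S_nonneg _ _
    | succ m =>
      rw [sum_range_succ', S_succ]
      have h1 := tangent_convex hr hv (x := (y : ℝ) + 1) (by positivity)
      have h2 := ih m
      have e : ∑ l ∈ range m, (v ^ r + r * v ^ (r - 1) * (((y + 1 : ℕ) : ℝ) - ((l + 1 : ℕ) : ℝ) - v)) =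
          ∑ l ∈ range m, (v ^ r + r * v ^ (r - 1) * ((y : ℝ) - l - v)) := by
        apply sum_congr rfl
        intro l _
        push_cast; ring
      rw [e]
      push_cast
      simp only [sub_zero]
      linarith

/-- Large multiplicity: comparison with `k = 2`. -/
theorem regime_one {r : ℝ} (hr : 1 ≤ r) (y m : ℕ) (h : 2 * y + 1 ≤ 3 * m) :
    (m : ℝ) * ((y : ℝ) + 1 / 2) ^ r * ((2 / 3 : ℝ) ^ r + (4 / 3 : ℝ) ^ r) ≤ S (y + m) r := by
  have ht : (0 : ℝ) < y + 1 / 2 := by positivity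
  set t : ℝ := y + 1 / 2 with htdef
  have hu : 0 < t * (4 / 3) := by positivity
  have hv : 0 < t * (2 / 3) := by positivity
  have h1 := second_block hr hv y m
  have h2 : ∑ l ∈ range m, ((t * (4 / 3)) ^ r + r * (t * (4 / 3)) ^ (r - 1) *
      ((y : ℝ) + 1 + l - t * (4 / 3))) ≤ ∑ l ∈ range m, ((y : ℝ) + 1 + l) ^ r :=
    sum_le_sum fun l _ => tangent_convex hr hu (by positivity)
  have e1 : ∑ l ∈ range m, ((t * (2 / 3)) ^ r + r * (t * (2 / 3)) ^ (r - 1) *
      ((y : ℝ) - l - t * (2 / 3))) = m * (t * (2 / 3)) ^ r -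
        r * (t * (2 / 3)) ^ (r - 1) * (m * (m / 2 - t / 3)) := by
    have := sum_lin m ((t * (2 / 3)) ^ r + r * (t * (2 / 3)) ^ (r - 1) * (y - t * (2 / 3)))
      (-(r * (t * (2 / 3)) ^ (r - 1)))
    rw [sum_congr rfl (g := fun l : ℕ => (t * (2 / 3)) ^ r + r * (t * (2 / 3)) ^ (r - 1) *
      (y - t * (2 / 3)) + -(r * (t * (2 / 3)) ^ (r - 1)) * (l : ℝ)) (fun l _ => by ring), this]
    rw [show (y : ℝ) = t - 1 / 2 by rw [htdef]; ring]
    ring
  have e2 : ∑ l ∈ range m, ((t * (4 / 3)) ^ r + r * (t * (4 / 3)) ^ (r - 1) *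
      ((y : ℝ) + 1 + l - t * (4 / 3))) = m * (t * (4 / 3)) ^ r +
        r * (t * (4 / 3)) ^ (r - 1) * (m * (m / 2 - t / 3)) := by
    have := sum_lin m ((t * (4 / 3)) ^ r + r * (t * (4 / 3)) ^ (r - 1) * (y + 1 - t * (4 / 3)))
      (r * (t * (4 / 3)) ^ (r - 1))
    rw [sum_congr rfl (g := fun l : ℕ => (t * (4 / 3)) ^ r + r * (t * (4 / 3)) ^ (r - 1) *
      (y + 1 - t * (4 / 3)) + (r * (t * (4 / 3)) ^ (r - 1)) * (l : ℝ)) (fun l _ => by ring), this]
    rw [show (y : ℝ) = t - 1 / 2 by rw [htdef]; ring]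
    ring
  have h3 : (t * (2 / 3)) ^ (r - 1) ≤ (t * (4 / 3)) ^ (r - 1) :=
    Real.rpow_le_rpow hv.le (by linarith) (by linarith)
  have h4 : (0 : ℝ) ≤ m * (m / 2 - t / 3) := by
    have : (2 * (y : ℝ) + 1) ≤ 3 * m := by exact_mod_cast h
    apply mul_nonneg (by positivity)
    rw [htdef]; linarith
  have h5 := mul_le_mul_of_nonneg_right (mul_le_mul_of_nonneg_left h3 (show 0 ≤ r by linarith)) h4
  rw [S_add]
  rw [e1] at h1
  rw [e2] at h2
  rw [Real.mul_rpow ht.le (by norm_num)] at h1 h2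
  nlinarith

end Pool.Agent.Lib.MP_819a4a_pr
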