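import Mathlib
import Pool.Agent.Lib.MP_819a4a_pr.Small

/-!
Monotonicity of `a k r` in `k` for `k ≥ r`.
-/

set_option autoImplicit false

namespace Pool.Agent.Lib.MP_819a4a_pr

open Finset

theorem a_eq {k : ℕ} (hk : 1 ≤ k) (r : ℝ) :
    a k r = ∑ i ∈ range k, (((i : ℝ) + 1) / ((k : ℝ) - 1 / 2)) ^ r := by
  have h : (0 : ℝ) < (k : ℝ) - 1 / 2 := by
    have : (1 : ℝ) ≤ k := by exact_mod_cast hk
    linarith
  unfold a
  rw [S_eq_range, sum_div]
  apply sum_congr rfl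
  intro i _
  rw [Real.div_rpow (by positivity) h.le]

/-- The difference `a (k+1) r - a k r`, arranged in pairs. -/
noncomputable def D (k : ℕ) (r : ℝ) : ℝ :=
  (((k : ℝ) + 1) / (k + 1 / 2)) ^ r - ((k : ℝ) / (k - 1 / 2)) ^ r +
    ∑ i ∈ range k, ((((i : ℝ) + 1) / (k + 1 / 2)) ^ r - ((i : ℝ) / (k - 1 / 2)) ^ r)

theorem D_eq {k : ℕ} (hk : 1 ≤ k) {r : ℝ} (hr : 0 < r) : D k r = a (k + 1) r - a k r := by
  rw [a_eq hk, a_eq (by omega), sum_range_succ]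
  have h1 := sum_range_succ (fun i : ℕ => ((i : ℝ) / (k - 1 / 2)) ^ r) k
  have h2 := sum_range_succ' (fun i : ℕ => ((i : ℝ) / (k - 1 / 2)) ^ r) k
  simp only [Nat.cast_zero, zero_div, Real.zero_rpow hr.ne', add_zero] at h2
  unfold D
  rw [sum_sub_distrib]
  push_cast at h2 ⊢
  rw [show (k : ℝ) + 1 - 1 / 2 = k + 1 / 2 by ring]
  linarith

theorem uv_le {k i : ℕ} (hk : 1 ≤ k) (hi : i < k) :
    (i : ℝ) / (k - 1 / 2) ≤ ((i : ℝ) + 1) / (k + 1 / 2) := by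
  have h1 : (1 : ℝ) ≤ k := by exact_mod_cast hk
  have h2 : (i : ℝ) + 1 ≤ k := by exact_mod_cast hi
  rw [div_le_div_iff₀ (by linarith) (by linarith)]
  nlinarith

theorem D_reduce {k : ℕ} (hk : 1 ≤ k) {r R : ℝ} (hr : 0 < r) (hR : r ≤ R) (h : 0 ≤ D k R) :
    0 ≤ D k r := by
  have h1 : (1 : ℝ) ≤ k := by exact_mod_cast hk
  have hR0 : 0 < R := hr.trans_le hR
  have hm : (0 : ℝ) < k - 1 / 2 := by linarith
  have hp0 : 0 ≤ r / R := by positivity
  have hp1 : r / R ≤ 1 := by rwa [div_le_one hR0]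
  have hpow : ∀ x : ℝ, 0 ≤ x → x ^ r = (x ^ R) ^ (r / R) := by
    intro x hx
    rw [← Real.rpow_mul hx]
    congr 1
    field_simp
  set A : ℝ := ((k : ℝ) + 1) / (k + 1 / 2) with hA
  have hA0 : 0 < A := by positivity
  set c : ℝ := r / R * (A ^ R) ^ (r / R - 1) with hc
  have hc0 : 0 ≤ c := by positivity
  have t1 : c * (A ^ R - ((k : ℝ) / (k - 1 / 2)) ^ R) ≤ A ^ r - ((k : ℝ) / (k - 1 / 2)) ^ r := by
    have := tangent_concave hp0 hp1 (c := A ^ R) (x := ((k : ℝ) / (k - 1 / 2)) ^ R)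
      (by positivity) (by positivity)
    rw [← hpow _ hA0.le, ← hpow _ (by positivity)] at this
    rw [hc]
    linarith
  have t2 : ∀ i ∈ range k, c * ((((i : ℝ) + 1) / (k + 1 / 2)) ^ R - ((i : ℝ) / (k - 1 / 2)) ^ R) ≤
      (((i : ℝ) + 1) / (k + 1 / 2)) ^ r - ((i : ℝ) / (k - 1 / 2)) ^ r := by
    intro i hi
    have hi' := mem_range.1 hi
    have hu : (0 : ℝ) < ((i : ℝ) + 1) / (k + 1 / 2) := by positivity
    have hv : (0 : ℝ) ≤ (i : ℝ) / (k - 1 / 2) := by positivity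
    have := tangent_concave hp0 hp1 (c := (((i : ℝ) + 1) / (k + 1 / 2)) ^ R)
      (x := ((i : ℝ) / (k - 1 / 2)) ^ R) (by positivity) (by positivity)
    rw [← hpow _ hu.le, ← hpow _ hv] at this
    have huA : ((i : ℝ) + 1) / (k + 1 / 2) ≤ A := by
      have : (i : ℝ) ≤ k := by exact_mod_cast hi'.le
      rw [hA]
      gcongr
    have h3 : (A ^ R) ^ (r / R - 1) ≤ ((((i : ℝ) + 1) / (k + 1 / 2)) ^ R) ^ (r / R - 1) :=
      Real.rpow_le_rpow_of_nonpos (by positivity) (Real.rpow_le_rpow hu.le huA hR0.le)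
        (by linarith)
    have h4 : 0 ≤ (((i : ℝ) + 1) / (k + 1 / 2)) ^ R - ((i : ℝ) / (k - 1 / 2)) ^ R :=
      sub_nonneg.2 (Real.rpow_le_rpow hv (uv_le hk hi') hR0.le)
    have h5 := mul_le_mul_of_nonneg_right (mul_le_mul_of_nonneg_left h3 hp0) h4
    rw [hc]
    linarith
  have t3 := sum_le_sum t2
  rw [← mul_sum] at t3
  have := mul_nonneg hc0 h
  unfold D at this ⊢
  rw [← hA] at this ⊢
  linarith

theorem nat_check : ∀ j < 30, (2 * j + 3) ^ (j + 1) * ∑ i ∈ range (j + 1), (i + 1) ^ (j + 1) ≤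
    (2 * j + 1) ^ (j + 1) * ∑ i ∈ range (j + 2), (i + 1) ^ (j + 1) := by
  decide +kernel

theorem D_small {k : ℕ} (hk : 1 ≤ k) (hk' : k ≤ 30) : 0 ≤ D k k := by
  obtain ⟨j, rfl⟩ : ∃ j, k = j + 1 := ⟨k - 1, by omega⟩
  rw [D_eq hk (by positivity), sub_nonneg]
  have h := nat_check j (by omega)
  have h' : ((2 * j + 3 : ℝ)) ^ (j + 1) * ∑ i ∈ range (j + 1), ((i : ℝ) + 1) ^ (j + 1) ≤
      (2 * j + 1 : ℝ) ^ (j + 1) * ∑ i ∈ range (j + 2), ((i : ℝ) + 1) ^ (j + 1) := by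
    exact_mod_cast h
  unfold a
  rw [S_eq_range, S_eq_range]
  simp only [Real.rpow_natCast]
  have e1 : ((j + 1 : ℕ) : ℝ) - 1 / 2 = (2 * j + 1) / 2 := by push_cast; ring
  have e2 : ((j + 1 + 1 : ℕ) : ℝ) - 1 / 2 = (2 * j + 3) / 2 := by push_cast; ring
  rw [e1, e2, div_pow, div_pow, div_div_eq_mul_div, div_div_eq_mul_div,
    div_le_div_iff₀ (by positivity) (by positivity)]
  have := mul_le_mul_of_nonneg_right h' (show (0 : ℝ) ≤ 2 ^ (j + 1) by positivity)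
  linarith

theorem exp_lower {x e : ℝ} (hx1 : x < 1) (he : 0 ≤ e) :
    Real.exp (-(e * (x / (1 - x)))) ≤ (1 - x) ^ e := by
  have h1 : 0 < 1 - x := by linarith
  have h2 := Real.add_one_le_exp (x / (1 - x))
  have h3 : Real.exp (-(x / (1 - x))) ≤ 1 - x := by
    rw [Real.exp_neg, inv_le_comm₀ (Real.exp_pos _) h1]
    refine le_trans (le_of_eq ?_) h2
    field_simp; ring
  have := Real.rpow_le_rpow (Real.exp_pos _).le h3 he
  rwa [← Real.exp_mul, show -(x / (1 - x)) * e = -(e * (x / (1 - x))) by ring] at this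

theorem exp_half_le : Real.exp (1 / 2) ≤ 1.6488 := by
  have h1 := Real.exp_one_lt_d9
  have h2 : Real.exp (1 / 2) ^ 2 = Real.exp 1 := by
    rw [← Real.exp_nat_mul]; norm_num
  by_contra hc
  push Not at hc
  nlinarith

theorem exp_neg_half_ge : 0.6065 ≤ Real.exp (-(1 / 2)) := by
  rw [Real.exp_neg, le_inv_comm₀ (by norm_num) (Real.exp_pos _)]
  exact exp_half_le.trans (by norm_num)

theorem exp_neg_ge (m : ℕ) (δ : ℝ) (hδ : δ ≤ 1) :
    0.6065 ^ m * (1 - δ) ≤ Real.exp (-((m : ℝ) / 2 + δ)) := by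
  have h1 : (0.6065 : ℝ) ^ m ≤ Real.exp (-(1 / 2)) ^ m :=
    pow_le_pow_left₀ (by norm_num) exp_neg_half_ge m
  have h2 := Real.add_one_le_exp (-δ)
  rw [← Real.exp_nat_mul] at h1
  rw [show -((m : ℝ) / 2 + δ) = m * -(1 / 2) + -δ by ring, Real.exp_add]
  exact mul_le_mul h1 (by linarith) (by linarith) (Real.exp_pos _).le

theorem term_ge {κ : ℝ} (hκ : 31 ≤ κ) (m : ℕ) (hm1 : 1 ≤ m) (hm : m ≤ 7) (δ : ℝ) (hδ : δ ≤ 1)
    (hδ' : (m : ℝ) * (m - 1) ≤ 2 * δ * (61 - m)) :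
    κ * ((m : ℝ) * (0.6065 ^ m * (1 - δ))) * (2 / ((2 * κ - 1) * (2 * κ + 1))) ≤
      (1 - m / (2 * κ + 1)) ^ κ - (1 - m / (2 * κ - 1)) ^ κ := by
  have hm' : (m : ℝ) ≤ 7 := by exact_mod_cast hm
  have hm1' : (1 : ℝ) ≤ m := by exact_mod_cast hm1
  have hn : 0 < 2 * κ - 1 := by linarith
  have hx : (m : ℝ) / (2 * κ - 1) < 1 := by rw [div_lt_one hn]; linarith
  have hx' : (m : ℝ) / (2 * κ + 1) < 1 := by rw [div_lt_one (by linarith)]; linarith
  have h1 := tangent_convex (r := κ) (c := 1 - m / (2 * κ - 1)) (x := 1 - m / (2 * κ + 1))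
    (by linarith) (by linarith) (by linarith)
  have h2 := exp_lower hx (e := κ - 1) (by linarith)
  have h3 := exp_neg_ge m δ hδ
  have hδ0 : 0 ≤ δ := by
    by_contra hc
    push Not at hc
    nlinarith
  have h4 : (κ - 1) * ((m : ℝ) / (2 * κ - 1) / (1 - m / (2 * κ - 1))) ≤ m / 2 + δ := by
    have hn2 : 0 < 2 * κ - 1 - m := by linarith
    have : (m : ℝ) / (2 * κ - 1) / (1 - m / (2 * κ - 1)) = m / (2 * κ - 1 - m) := by
      field_simp
    rw [this, ← mul_div_assoc, div_le_iff₀ hn2]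
    nlinarith
  have h5 : Real.exp (-((m : ℝ) / 2 + δ)) ≤ (1 - m / (2 * κ - 1)) ^ (κ - 1) :=
    (Real.exp_le_exp.2 (by linarith)).trans h2
  have e : (1 - (m : ℝ) / (2 * κ + 1)) - (1 - m / (2 * κ - 1)) =
      m * (2 / ((2 * κ - 1) * (2 * κ + 1))) := by field_simp; ring
  rw [e] at h1
  have h6 : 0 ≤ κ * ((m : ℝ) * (2 / ((2 * κ - 1) * (2 * κ + 1)))) := by
    have : 0 < 2 * κ + 1 := by linarith
    have : 0 < κ := by linarith
    positivity
  have := mul_le_mul_of_nonneg_right (h3.trans h5) h6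
  nlinarith

theorem D_large {k : ℕ} (hk : 31 ≤ k) : 0 ≤ D k k := by
  obtain ⟨j, rfl⟩ : ∃ j, k = j + 4 := ⟨k - 4, by omega⟩
  have hκ : (31 : ℝ) ≤ ((j + 4 : ℕ) : ℝ) := by exact_mod_cast hk
  have hrest : 0 ≤ ∑ i ∈ range j, ((((i : ℝ) + 1) / (((j + 4 : ℕ) : ℝ) + 1 / 2)) ^ ((j + 4 : ℕ) : ℝ) -
      ((i : ℝ) / (((j + 4 : ℕ) : ℝ) - 1 / 2)) ^ ((j + 4 : ℕ) : ℝ)) := by
    apply sum_nonneg
    intro i hi
    have := mem_range.1 hi
    exact sub_nonneg.2 (Real.rpow_le_rpow (div_nonneg (by positivity) (by linarith))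
      (uv_le (by omega) (by omega)) (by positivity))
  unfold D
  rw [sum_range_succ, sum_range_succ, sum_range_succ, sum_range_succ]
  have hj : (j : ℝ) = ((j + 4 : ℕ) : ℝ) - 4 := by push_cast; ring
  have hj1 : ((j + 1 : ℕ) : ℝ) = ((j + 4 : ℕ) : ℝ) - 3 := by push_cast; ring
  have hj2 : ((j + 2 : ℕ) : ℝ) = ((j + 4 : ℕ) : ℝ) - 2 := by push_cast; ring
  have hj3 : ((j + 3 : ℕ) : ℝ) = ((j + 4 : ℕ) : ℝ) - 1 := by push_cast; ring
  rw [hj3, hj2, hj1, hj]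
  generalize ((j + 4 : ℕ) : ℝ) = κ at hκ hrest ⊢
  have hn : 0 < 2 * κ - 1 := by linarith
  have hn' : 0 < 2 * κ + 1 := by linarith
  have hm : 0 < κ - 1 / 2 := by linarith
  have hm' : 0 < κ + 1 / 2 := by linarith
  have t1 := term_ge hκ 1 (by norm_num) (by norm_num) 0 (by norm_num) (by norm_num)
  have t3 := term_ge hκ 3 (by norm_num) (by norm_num) 0.052 (by norm_num) (by norm_num)
  have t5 := term_ge hκ 5 (by norm_num) (by norm_num) 0.179 (by norm_num) (by norm_num)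
  have t7 := term_ge hκ 7 (by norm_num) (by norm_num) 0.389 (by norm_num) (by norm_num)
  have u : ∀ c : ℝ, (κ - c + 1) / (κ + 1 / 2) = 1 - (2 * c - 1) / (2 * κ + 1) := by
    intro c
    rw [one_sub_div hn'.ne', div_eq_div_iff hm'.ne' hn'.ne']; ring
  have v : ∀ c : ℝ, (κ - c) / (κ - 1 / 2) = 1 - (2 * c - 1) / (2 * κ - 1) := by
    intro c
    rw [one_sub_div hn.ne', div_eq_div_iff hm.ne' hn.ne']; ring
  rw [u, u, u, u, v, v, v, v]
  have t0 := tangent_convex (r := κ) (c := κ / (κ - 1 / 2)) (x := (κ + 1) / (κ + 1 / 2))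
    (by linarith) (div_pos (by linarith) hm) (div_nonneg (by linarith) hm'.le)
  have e0 : (κ + 1) / (κ + 1 / 2) - κ / (κ - 1 / 2) = -(2 / ((2 * κ - 1) * (2 * κ + 1))) := by
    rw [div_sub_div _ _ hm'.ne' hm.ne', ← neg_div,
      div_eq_div_iff (mul_pos hm' hm).ne' (mul_pos hn hn').ne']; ring
  rw [e0] at t0
  have hB : (κ / (κ - 1 / 2)) ^ (κ - 1) ≤ 1.6488 := by
    have h1 : κ / (κ - 1 / 2) ≤ Real.exp (1 / (2 * κ - 1)) := by
      refine le_trans (le_of_eq ?_) (Real.add_one_le_exp _)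
      rw [div_add_one hn.ne', div_eq_div_iff hm.ne' hn.ne']; ring
    have h2 := Real.rpow_le_rpow (div_pos (by linarith) hm).le h1 (show 0 ≤ κ - 1 by linarith)
    rw [← Real.exp_mul] at h2
    refine h2.trans (le_trans (Real.exp_le_exp.2 ?_) exp_half_le)
    rw [div_mul_eq_mul_div, div_le_iff₀ hn]
    linarith
  have hd : 0 ≤ κ * (2 / ((2 * κ - 1) * (2 * κ + 1))) := by
    have : 0 < κ := by linarith
    positivity
  have := mul_le_mul_of_nonneg_right hB hd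
  rw [sum_sub_distrib] at hrest
  norm_num at t1 t3 t5 t7 this ⊢
  nlinarith

theorem a_mono_succ {k : ℕ} {r : ℝ} (hr : 0 < r) (hk : r ≤ k) : a k r ≤ a (k + 1) r := by
  have hk1 : 1 ≤ k := by
    have : (0 : ℝ) < k := hr.trans_le hk
    exact_mod_cast this
  have h : 0 ≤ D k k := by
    rcases le_or_gt k 30 with h | h
    · exact D_small hk1 h
    · exact D_large h
  have := D_reduce hk1 hr hk h
  rw [D_eq hk1 hr] at this
  linarith

theorem a_mono {r : ℝ} (hr : 0 < r) {k : ℕ} (hk : ⌈r⌉₊ ≤ k) : a ⌈r⌉₊ r ≤ a k r := by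
  induction k, hk using Nat.le_induction with
  | base => exact le_rfl
  | succ k hk ih => exact ih.trans (a_mono_succ hr (Nat.ceil_le.1 hk))

end Pool.Agent.Lib.MP_819a4a_pr
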