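import Mathlib
import Pool.Agent.Lib.MP_819a4a_pr.Mono

/-!
The regime of multiplicity at least two and small relative multiplicity.
-/

set_option autoImplicit false

namespace Pool.Agent.Lib.MP_819a4a_pr

open Finset

theorem three_halves {x c : ℝ} (hx : 0 < x) (hc : 0 < c) :
    x ^ (3 / 2 : ℝ) ≤ x * ((x / c + c) / 2) := by
  have hw : x ^ (1 / 2 : ℝ) * x ^ (1 / 2 : ℝ) = x := by
    rw [← Real.rpow_add hx]; norm_num
  rw [show (3 / 2 : ℝ) = 1 + 1 / 2 by norm_num, Real.rpow_add hx, Real.rpow_one]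
  apply mul_le_mul_of_nonneg_left _ hx.le
  rw [le_div_iff₀ (by norm_num), ← sub_le_iff_le_add, le_div_iff₀ hc]
  nlinarith [sq_nonneg (x ^ (1 / 2 : ℝ) - c)]

theorem theta_bound {θ r : ℝ} (h0 : 0 ≤ θ) (h1 : θ ≤ 2 / 5) (hr1 : 1 ≤ r) (hr2 : r ≤ 2) :
    (r + 1) * (θ * (((1 - θ) * (2 / 3)) ^ r + ((1 - θ) * (4 / 3)) ^ r)) ≤ 120 / 121 := by
  have hA : 0 < (1 - θ) * (2 / 3) := by nlinarith
  have hB : 0 < (1 - θ) * (4 / 3) := by nlinarith
  have a3 := three_halves hA (c := 253 / 400) (by norm_num)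
  have b3 := three_halves hB (c := 559 / 625) (by norm_num)
  have H1 : θ * ((1 - θ) * (2 / 3) + (1 - θ) * (4 / 3)) ≤ 0.48 := by nlinarith
  have H3 : θ * (((1 - θ) * (2 / 3)) ^ (3 / 2 : ℝ) + ((1 - θ) * (4 / 3)) ^ (3 / 2 : ℝ)) ≤ 0.3876 := by
    refine (mul_le_mul_of_nonneg_left (add_le_add a3 b3) h0).trans ?_
    have e : θ * ((1 - θ) * (2 / 3) * (((1 - θ) * (2 / 3) / (253 / 400) + 253 / 400) / 2) +
        (1 - θ) * (4 / 3) * (((1 - θ) * (4 / 3) / (559 / 625) + 559 / 625) / 2)) =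
        (800 / 2277 + 5000 / 5031) * (θ * (1 - θ) ^ 2) +
          (253 / 1200 + 1118 / 1875) * (θ * (1 - θ)) := by ring
    rw [e]
    nlinarith [mul_nonneg (sub_nonneg.2 h1) (sq_nonneg (θ - 2 / 5)), sq_nonneg (θ - 2 / 5)]
  have H2 : θ * (((1 - θ) * (2 / 3)) ^ 2 + ((1 - θ) * (4 / 3)) ^ 2) ≤ 0.3293 := by
    nlinarith [mul_nonneg (sub_nonneg.2 h1) (sq_nonneg (θ - 1 / 3)), sq_nonneg (θ - 1 / 3)]
  rcases le_total r (3 / 2) with h | h
  · have a1 := rpow_le_chord (r := r) (r₁ := 1) (r₂ := 3 / 2) (s := 2 * (r - 1)) hA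
      (by linarith) (by linarith) (by ring)
    have b1 := rpow_le_chord (r := r) (r₁ := 1) (r₂ := 3 / 2) (s := 2 * (r - 1)) hB
      (by linarith) (by linarith) (by ring)
    rw [Real.rpow_one] at a1 b1
    have c1 := mul_le_mul_of_nonneg_left (add_le_add a1 b1) h0
    have c2 := mul_le_mul_of_nonneg_left H1 (show 0 ≤ 1 - 2 * (r - 1) by linarith)
    have c3 := mul_le_mul_of_nonneg_left H3 (show 0 ≤ 2 * (r - 1) by linarith)
    have c4 : θ * (((1 - θ) * (2 / 3)) ^ r + ((1 - θ) * (4 / 3)) ^ r) ≤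
        (1 - 2 * (r - 1)) * 0.48 + 2 * (r - 1) * 0.3876 := by linarith
    refine (mul_le_mul_of_nonneg_left c4 (by linarith)).trans ?_
    nlinarith [sq_nonneg (r - 1.3)]
  · have a1 := rpow_le_chord (r := r) (r₁ := 3 / 2) (r₂ := 2) (s := 2 * r - 3) hA
      (by linarith) (by linarith) (by ring)
    have b1 := rpow_le_chord (r := r) (r₁ := 3 / 2) (r₂ := 2) (s := 2 * r - 3) hB
      (by linarith) (by linarith) (by ring)
    rw [Real.rpow_two] at a1 b1
    have c1 := mul_le_mul_of_nonneg_left (add_le_add a1 b1) h0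
    have c2 := mul_le_mul_of_nonneg_left H3 (show 0 ≤ 1 - (2 * r - 3) by linarith)
    have c3 := mul_le_mul_of_nonneg_left H2 (show 0 ≤ 2 * r - 3 by linarith)
    have c4 : θ * (((1 - θ) * (2 / 3)) ^ r + ((1 - θ) * (4 / 3)) ^ r) ≤
        (1 - (2 * r - 3)) * 0.3876 + (2 * r - 3) * 0.3293 := by linarith
    refine (mul_le_mul_of_nonneg_left c4 (by linarith)).trans ?_
    nlinarith [sq_nonneg (r - 1.92)]

theorem regime_two_small {r : ℝ} (hr1 : 1 ≤ r) (hr2 : r ≤ 2) (y m : ℕ) (hm : 2 ≤ m)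
    (h : 3 * m ≤ 2 * y + 1) :
    (m : ℝ) * ((y : ℝ) + 1 / 2) ^ r * ((2 / 3 : ℝ) ^ r + (4 / 3 : ℝ) ^ r) ≤ S (y + m) r := by
  have hk : (5 : ℝ) ≤ ((y + m : ℕ) : ℝ) := by exact_mod_cast (show 5 ≤ y + m by omega)
  have h' : 3 * (m : ℝ) ≤ 2 * y + 1 := by exact_mod_cast h
  have hl := lower12 hr1 hr2 (y + m)
  set N : ℝ := ((y + m : ℕ) : ℝ) + 1 / 2 with hN
  have hN' : N = y + m + 1 / 2 := by rw [hN]; push_cast; ring
  have hN0 : 0 < N := by linarith
  have hθ1 : (m : ℝ) / N ≤ 2 / 5 := by rw [div_le_iff₀ hN0]; linarith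
  have hb := theta_bound (θ := m / N) (by positivity) hθ1 hr1 hr2
  have ht : (y : ℝ) + 1 / 2 = N * (1 - m / N) := by field_simp; linarith
  have h1θ : 0 ≤ 1 - (m : ℝ) / N := by linarith
  rw [Real.mul_rpow h1θ (by norm_num), Real.mul_rpow h1θ (by norm_num)] at hb
  rw [ht, Real.mul_rpow hN0.le h1θ]
  rw [Real.rpow_add_one hN0.ne', Real.rpow_sub_one hN0.ne'] at hl
  have hp : 0 < N ^ r := Real.rpow_pos_of_pos hN0 r
  have h2 : N ^ r / N / 4 ≤ N ^ r * N / 121 := by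
    rw [div_div, div_le_div_iff₀ (by positivity) (by norm_num)]
    have : 121 ≤ N * (N * 4) := by nlinarith
    nlinarith
  have h3 := mul_le_mul_of_nonneg_left hb (mul_pos hp hN0).le
  apply le_of_mul_le_mul_left _ (show 0 < r + 1 by linarith)
  refine le_trans (le_of_eq ?_) (h3.trans (by linarith))
  field_simp

/-- The continuous optimum. -/
noncomputable def C (r : ℝ) : ℝ := (1 + 1 / r) ^ r

theorem C_pos {r : ℝ} (hr : 0 < r) : 0 < C r := by unfold C; positivity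

theorem beta_bound {μ β : ℝ} (hμ0 : 0 ≤ μ) (hμ : μ ≤ 1 / 64) (h0 : 0 < β) (h4 : β ≤ 4) :
    β * (1 - 67 / 64 * μ) * Real.exp (1 - β) ≤ 1 - μ * β ^ 2 := by
  have hq : 0 ≤ 1 - μ * β ^ 2 := by nlinarith [mul_le_mul hμ (show β ^ 2 ≤ 16 by nlinarith) (by positivity) (by norm_num)]
  have key : β * (1 - 67 / 64 * μ) ≤ (1 - μ * β ^ 2) * Real.exp (β - 1) := by
    rcases le_total β 1 with h | h
    · have h1 := Real.add_one_le_exp (β - 1)
      have h2 : 1 - 67 / 64 * μ ≤ 1 - μ * β ^ 2 := by nlinarith [mul_le_mul_of_nonneg_left (show β ^ 2 ≤ 1 by nlinarith) hμ0]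
      nlinarith
    · have h1 := Real.quadratic_le_exp_of_nonneg (x := β - 1) (by linarith)
      refine le_trans ?_ (mul_le_mul_of_nonneg_left h1 hq)
      obtain ⟨x, rfl⟩ : ∃ x, β = 1 + x := ⟨β - 1, by ring⟩
      have hx0 : 0 ≤ x := by linarith
      have hx3 : x ≤ 3 := by linarith
      -- the expression is affine in `μ`, so check the two end points
      have e0 : 0 ≤ x ^ 2 / 2 := by positivity
      have e1 : 0 ≤ x ^ 2 / 2 + (1 / 64) * (67 / 64 * (1 + x) - (1 + x) ^ 2 * (1 + x + x ^ 2 / 2)) := by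
        nlinarith [sq_nonneg (x - 1 / 30), mul_nonneg (mul_nonneg hx0 hx0) (sub_nonneg.2 hx3),
          mul_nonneg (mul_nonneg (mul_nonneg hx0 hx0) hx0) (sub_nonneg.2 hx3)]
      have e2 := mul_nonneg (show 0 ≤ 1 - 64 * μ by linarith) e0
      have e3 := mul_nonneg (show 0 ≤ 64 * μ by linarith) e1
      nlinarith
  have e : Real.exp (β - 1) * Real.exp (1 - β) = 1 := by rw [← Real.exp_add]; simp
  have := mul_le_mul_of_nonneg_right key (Real.exp_pos (1 - β)).le
  rw [mul_assoc (1 - μ * β ^ 2), e] at this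
  linarith

theorem C_mul_le {r θ : ℝ} (hr : 0 < r) (hθ : θ ≤ 1) :
    C r * (1 - θ) ^ r ≤ Real.exp (1 - (r + 1) * θ) := by
  unfold C
  rw [← Real.mul_rpow (by positivity) (by linarith)]
  have h1 : (1 + 1 / r) * (1 - θ) ≤ Real.exp ((1 - (r + 1) * θ) / r) := by
    refine le_trans (le_of_eq ?_) (Real.add_one_le_exp _)
    field_simp; ring
  have := Real.rpow_le_rpow (mul_nonneg (by positivity) (by linarith)) h1 hr.le
  rwa [← Real.exp_mul, div_mul_cancel₀ _ hr.ne'] at this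

theorem C_bound {r μ : ℝ} (hr : 0 < r) (hμ0 : 0 ≤ μ) (hμ : μ ≤ 1 / 64) (y m : ℕ) (hm : 2 ≤ m)
    (H : (((y + m : ℕ) : ℝ) + 1 / 2) ^ (r + 1) -
      4 * μ * (r + 1) ^ 2 * (((y + m : ℕ) : ℝ) + 1 / 2) ^ (r - 1) ≤ (r + 1) * S (y + m) r) :
    (m : ℝ) * ((y : ℝ) + 1 / 2) ^ r * (C r * (1 - 67 / 64 * μ)) ≤ S (y + m) r := by
  have hm' : (2 : ℝ) ≤ m := by exact_mod_cast hm
  have hi := int_lower hr.le (y + m)
  set N : ℝ := ((y + m : ℕ) : ℝ) + 1 / 2 with hN
  have hN' : N = y + m + 1 / 2 := by rw [hN]; push_cast; ring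
  have hy : (0 : ℝ) ≤ y := by positivity
  have hN0 : 0 < N := by linarith
  have hθ0 : 0 < (m : ℝ) / N := by positivity
  have hθ1 : (m : ℝ) / N ≤ 1 := by rw [div_le_one hN0]; linarith
  have ht : (y : ℝ) + 1 / 2 = N * (1 - m / N) := by field_simp; linarith
  have h1θ : 0 ≤ 1 - (m : ℝ) / N := by linarith
  have hC := C_mul_le hr hθ1
  have hp : 0 < N ^ r := Real.rpow_pos_of_pos hN0 r
  rw [ht, Real.mul_rpow hN0.le h1θ]
  set β : ℝ := (r + 1) * (m / N) with hβ
  have hβ0 : 0 < β := by positivity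
  apply le_of_mul_le_mul_left _ (show 0 < r + 1 by linarith)
  have e : (r + 1) * (m * (N ^ r * (1 - m / N) ^ r) * (C r * (1 - 67 / 64 * μ))) =
      N ^ r * N * (β * (1 - 67 / 64 * μ) * (C r * (1 - m / N) ^ r)) := by
    rw [hβ]; field_simp
  rw [e]
  have h67 : 0 ≤ β * (1 - 67 / 64 * μ) := mul_nonneg hβ0.le (by linarith)
  have step1 : β * (1 - 67 / 64 * μ) * (C r * (1 - m / N) ^ r) ≤
      β * (1 - 67 / 64 * μ) * Real.exp (1 - β) := mul_le_mul_of_nonneg_left hC h67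
  refine (mul_le_mul_of_nonneg_left step1 (mul_pos hp hN0).le).trans ?_
  rcases le_total β 4 with h4 | h4
  · refine (mul_le_mul_of_nonneg_left (beta_bound hμ0 hμ hβ0 h4) (mul_pos hp hN0).le).trans ?_
    rw [Real.rpow_add_one hN0.ne', Real.rpow_sub_one hN0.ne'] at H
    refine le_trans ?_ H
    have : 4 * μ * (r + 1) ^ 2 * (N ^ r / N) ≤ N ^ r * N * (μ * β ^ 2) := by
      have e2 : N ^ r * N * (μ * β ^ 2) = (m : ℝ) ^ 2 * (μ * (r + 1) ^ 2 * (N ^ r / N)) := by
        rw [hβ]; field_simp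
      rw [e2]
      have : 0 ≤ μ * (r + 1) ^ 2 * (N ^ r / N) := by positivity
      nlinarith [mul_le_mul_of_nonneg_right (show (4 : ℝ) ≤ (m : ℝ) ^ 2 by nlinarith) this]
    linarith
  · refine le_trans ?_ hi
    have hk : ((y + m : ℕ) : ℝ) = N * (1 - 1 / (2 * N)) := by field_simp; linarith
    have hq : 1 / (2 * N) ≤ m / N / 4 := by
      rw [div_div, div_le_div_iff₀ (by positivity) (by positivity)]; nlinarith
    have hq1 : 0 ≤ 1 - m / N / 4 := by linarith
    rw [hk, Real.mul_rpow hN0.le (by linarith), Real.rpow_add_one hN0.ne']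
    apply mul_le_mul_of_nonneg_left _ (mul_pos hp hN0).le
    have a1 : (1 - m / N / 4) ^ (r + 1) ≤ (1 - 1 / (2 * N)) ^ (r + 1) :=
      Real.rpow_le_rpow hq1 (by linarith) (by linarith)
    have a2 := exp_lower (x := m / N / 4) (e := r + 1) (by linarith) (by linarith)
    have a3 : (r + 1) * (m / N / 4 / (1 - m / N / 4)) ≤ β / 3 := by
      rw [← mul_div_assoc, div_le_iff₀ (by linarith)]
      have : (r + 1) * (m / N / 4) = β / 4 := by rw [hβ]; ring
      rw [this]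
      nlinarith
    refine le_trans ?_ ((Real.exp_le_exp.2 (neg_le_neg a3)).trans (a2.trans a1))
    have a4 := Real.quadratic_le_exp_of_nonneg (x := 2 * β / 3 - 1) (by linarith)
    have a5 : β ≤ Real.exp (2 * β / 3 - 1) := le_trans (by nlinarith) a4
    have a6 : Real.exp (-(β / 3)) = Real.exp (2 * β / 3 - 1) * Real.exp (1 - β) := by
      rw [← Real.exp_add]; congr 1; ring
    rw [a6]
    apply mul_le_mul_of_nonneg_right _ (Real.exp_pos _).le
    nlinarith [mul_nonneg hβ0.le hμ0]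

/-- `x^r / C r`. -/
noncomputable def rho (x r : ℝ) : ℝ := (x * (r / (r + 1))) ^ r

theorem rho_eq {x r : ℝ} (hx : 0 ≤ x) (hr : 0 < r) : x ^ r = C r * rho x r := by
  unfold C rho
  rw [← Real.mul_rpow (by positivity) (by positivity)]
  congr 1
  field_simp

theorem rho_conv {x r r₁ r₂ s : ℝ} (hx : 0 < x) (h1 : 0 < r₁) (h2 : 0 < r₂) (hs0 : 0 ≤ s)
    (hs1 : s ≤ 1) (hr : r = (1 - s) * r₁ + s * r₂) :
    rho x r ≤ (1 - s) * rho x r₁ + s * rho x r₂ := by
  have hs1' : 0 ≤ 1 - s := by linarith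
  have hr0 : 0 < r := by
    rcases hs0.eq_or_lt with h | h
    · rw [hr, ← h]; linarith
    · rw [hr]; positivity
  have hC : C r₁ ^ (1 - s) * C r₂ ^ s ≤ C r := by
    have := Real.geom_mean_le_arith_mean2_weighted (w₁ := (1 - s) * r₁ / r) (w₂ := s * r₂ / r)
      (p₁ := 1 + 1 / r₁) (p₂ := 1 + 1 / r₂) (by positivity) (by positivity) (by positivity)
      (by positivity) (by rw [← add_div, ← hr, div_self hr0.ne'])
    have e : (1 - s) * r₁ / r * (1 + 1 / r₁) + s * r₂ / r * (1 + 1 / r₂) = 1 + 1 / r := by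
      have : (1 - s) * r₁ / r * (1 + 1 / r₁) + s * r₂ / r * (1 + 1 / r₂) =
          (((1 - s) * r₁ + s * r₂) + 1) / r := by field_simp; ring
      rw [this, ← hr]; field_simp
    rw [e] at this
    have := Real.rpow_le_rpow (by positivity) this hr0.le
    rw [Real.mul_rpow (by positivity) (by positivity), ← Real.rpow_mul (by positivity),
      ← Real.rpow_mul (by positivity), div_mul_cancel₀ _ hr0.ne', div_mul_cancel₀ _ hr0.ne'] at this
    unfold C
    rw [← Real.rpow_mul (by positivity), ← Real.rpow_mul (by positivity), mul_comm r₁, mul_comm r₂]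
    exact this
  have p1 : 0 < rho x r₁ := by unfold rho; positivity
  have p2 : 0 < rho x r₂ := by unfold rho; positivity
  have p0 : 0 < rho x r := by unfold rho; positivity
  have am := Real.geom_mean_le_arith_mean2_weighted (w₁ := 1 - s) (w₂ := s)
    (p₁ := rho x r₁) (p₂ := rho x r₂) hs1' hs0 p1.le p2.le (by ring)
  refine le_trans ?_ am
  have e : x ^ r = (x ^ r₁) ^ (1 - s) * (x ^ r₂) ^ s := by
    rw [← Real.rpow_mul hx.le, ← Real.rpow_mul hx.le, ← Real.rpow_add hx, hr]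
    congr 1; ring
  rw [rho_eq hx.le hr0, rho_eq hx.le h1, rho_eq hx.le h2,
    Real.mul_rpow (C_pos h1).le p1.le, Real.mul_rpow (C_pos h2).le p2.le] at e
  apply le_of_mul_le_mul_left _ (C_pos hr0)
  rw [e]
  have := mul_le_mul_of_nonneg_right hC
    (show 0 ≤ rho x r₁ ^ (1 - s) * rho x r₂ ^ s by positivity)
  linarith

theorem rho_num {x U : ℝ} (hx : 0 < x) (hU : 0 < U) (h : (x * (41 / 61)) ^ 41 ≤ U ^ 20) :
    rho x (41 / 20) ≤ U := by
  unfold rho
  rw [show (41 / 20 : ℝ) / (41 / 20 + 1) = 41 / 61 by norm_num]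
  apply le_of_pow_le_pow_left₀ (n := 20) (by norm_num) hU.le
  rw [← Real.rpow_natCast, ← Real.rpow_mul (by positivity)]
  rw [show (41 / 20 : ℝ) * ((20 : ℕ) : ℝ) = ((41 : ℕ) : ℝ) by norm_num, Real.rpow_natCast]
  exact h

theorem rho_nat (x : ℝ) (n : ℕ) : rho x n = (x * (n / (n + 1))) ^ n := by
  unfold rho; rw [Real.rpow_natCast]

theorem rho_two (x : ℝ) : rho x 2 = (x * (2 / 3)) ^ 2 := by
  have := rho_nat x 2
  norm_num at this ⊢
  exact this

theorem rho_three (x : ℝ) : rho x 3 = (x * (3 / 4)) ^ 3 := by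
  have := rho_nat x 3
  norm_num at this ⊢
  exact this

theorem rho_four (x : ℝ) : rho x 4 = (x * (4 / 5)) ^ 4 := by
  have := rho_nat x 4
  norm_num at this ⊢
  exact this

theorem a_two (r : ℝ) : a 2 r = (2 / 3 : ℝ) ^ r + (4 / 3 : ℝ) ^ r := by
  rw [a_eq (by norm_num)]
  simp only [sum_range_succ]
  norm_num

theorem a_three (r : ℝ) : a 3 r = (2 / 5 : ℝ) ^ r + (4 / 5 : ℝ) ^ r + (6 / 5 : ℝ) ^ r := by
  rw [a_eq (by norm_num)]
  simp only [sum_range_succ]
  norm_num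

theorem a_four (r : ℝ) :
    a 4 r = (2 / 7 : ℝ) ^ r + (4 / 7 : ℝ) ^ r + (6 / 7 : ℝ) ^ r + (8 / 7 : ℝ) ^ r := by
  rw [a_eq (by norm_num)]
  simp only [sum_range_succ]
  norm_num

theorem a_two_le {r : ℝ} (h1 : 2 ≤ r) (h2 : r ≤ 41 / 20) : a 2 r ≤ C r * 0.9917 := by
  have hr : 0 < r := by linarith
  have cv : ∀ x : ℝ, 0 < x → rho x r ≤ (1 - 20 * (r - 2)) * rho x 2 + 20 * (r - 2) * rho x (41 / 20) :=
    fun x hx => rho_conv hx (by norm_num) (by norm_num) (by linarith) (by linarith) (by ring)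
  have n1 : rho (2 / 3) (41 / 20) ≤ 0.19289 := rho_num (by norm_num) (by norm_num) (by norm_num)
  have n2 : rho (4 / 3) (41 / 20) ≤ 0.79875 := rho_num (by norm_num) (by norm_num) (by norm_num)
  have c1 := cv (2 / 3) (by norm_num)
  have c2 := cv (4 / 3) (by norm_num)
  rw [rho_two] at c1 c2
  rw [a_two, rho_eq (by norm_num) hr, rho_eq (by norm_num) hr, ← mul_add]
  apply mul_le_mul_of_nonneg_left _ (C_pos hr).le
  nlinarith

theorem a_three_le {r : ℝ} (h1 : 41 / 20 ≤ r) (h2 : r ≤ 3) :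
    a 3 r ≤ C r * (0.9917 - 0.0197 * (20 / 19 * (r - 41 / 20))) := by
  have hr : 0 < r := by linarith
  have cv : ∀ x : ℝ, 0 < x → rho x r ≤ (1 - 20 / 19 * (r - 41 / 20)) * rho x (41 / 20) +
      20 / 19 * (r - 41 / 20) * rho x 3 :=
    fun x hx => rho_conv hx (by norm_num) (by norm_num) (by linarith) (by linarith) (by ring)
  have n1 : rho (2 / 5) (41 / 20) ≤ 0.0677 := rho_num (by norm_num) (by norm_num) (by norm_num)
  have n2 : rho (4 / 5) (41 / 20) ≤ 0.2803 := rho_num (by norm_num) (by norm_num) (by norm_num)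
  have n3 : rho (6 / 5) (41 / 20) ≤ 0.6436 := rho_num (by norm_num) (by norm_num) (by norm_num)
  have c1 := cv (2 / 5) (by norm_num)
  have c2 := cv (4 / 5) (by norm_num)
  have c3 := cv (6 / 5) (by norm_num)
  rw [rho_three] at c1 c2 c3
  rw [a_three, rho_eq (by norm_num) hr, rho_eq (by norm_num) hr, rho_eq (by norm_num) hr,
    ← mul_add, ← mul_add]
  apply mul_le_mul_of_nonneg_left _ (C_pos hr).le
  nlinarith

theorem a_four_le {r : ℝ} (h1 : 3 ≤ r) (h2 : r ≤ 4) : a 4 r ≤ C r * 0.984 := by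
  have hr : 0 < r := by linarith
  have cv : ∀ x : ℝ, 0 < x → rho x r ≤ (1 - (r - 3)) * rho x 3 + (r - 3) * rho x 4 :=
    fun x hx => rho_conv hx (by norm_num) (by norm_num) (by linarith) (by linarith) (by ring)
  have c1 := cv (2 / 7) (by norm_num)
  have c2 := cv (4 / 7) (by norm_num)
  have c3 := cv (6 / 7) (by norm_num)
  have c4 := cv (8 / 7) (by norm_num)
  rw [rho_three, rho_four] at c1 c2 c3 c4
  rw [a_four, rho_eq (by norm_num) hr, rho_eq (by norm_num) hr, rho_eq (by norm_num) hr,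
    rho_eq (by norm_num) hr, ← mul_add, ← mul_add, ← mul_add]
  apply mul_le_mul_of_nonneg_left _ (C_pos hr).le
  nlinarith

theorem a_large {r : ℝ} {j : ℕ} (hj : 5 ≤ j) (h1 : (j : ℝ) - 1 ≤ r) (h2 : r ≤ j) :
    a j r ≤ C r * 0.98868 := by
  have hj' : (5 : ℝ) ≤ j := by exact_mod_cast hj
  have hr : 0 < r := by linarith
  have hu := upper3 (r := r) (by linarith) j
  have hi := int_lower (p := r - 2) (by linarith) j
  rw [show r - 2 + 1 = r - 1 by ring] at hi
  set N : ℝ := (j : ℝ) + 1 / 2 with hN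
  have hN0 : 0 < N := by linarith
  have hp : 0 < N ^ r := Real.rpow_pos_of_pos hN0 r
  have hjN : (j : ℝ) = N * (1 + -(1 / (2 * N))) := by field_simp; linarith
  have hq : -1 ≤ -(1 / (2 * N)) := by
    rw [neg_le_neg_iff, div_le_one (by positivity)]; linarith
  have b1 := one_add_mul_self_le_rpow_one_add hq (p := r - 1) (by linarith)
  have b2 : N ^ r / N * (1 + (r - 1) * -(1 / (2 * N))) ≤ (j : ℝ) ^ (r - 1) := by
    conv_rhs => rw [hjN, Real.mul_rpow hN0.le (by linarith), Real.rpow_sub_one hN0.ne']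
    exact mul_le_mul_of_nonneg_left b1 (by positivity)
  have b3 : 0.0195 * (N ^ r * N) ≤ (r + 1) * r / 24 * (N ^ r / N * (1 + (r - 1) * -(1 / (2 * N)))) := by
    have e : (r + 1) * r / 24 * (N ^ r / N * (1 + (r - 1) * -(1 / (2 * N)))) =
        ((r + 1) * r * (2 * N - r + 1) / (48 * N ^ 3)) * (N ^ r * N) := by field_simp; ring
    rw [e]
    apply mul_le_mul_of_nonneg_right _ (by positivity)
    rw [le_div_iff₀ (by positivity)]
    obtain ⟨s, hs⟩ : ∃ s, r = N - 3 / 2 + s := ⟨r - N + 3 / 2, by ring⟩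
    obtain ⟨n, hn⟩ : ∃ n, N = 11 / 2 + n := ⟨N - 11 / 2, by ring⟩
    have hs0 : 0 ≤ s := by linarith
    have hs1 : s ≤ 1 := by linarith
    have hn0 : 0 ≤ n := by linarith
    rw [hs, hn]
    nlinarith [mul_nonneg hs0 hn0, mul_nonneg (mul_nonneg hs0 hn0) hn0, mul_nonneg hn0 hn0,
      mul_nonneg (mul_nonneg hn0 hn0) hn0, mul_nonneg hs0 (sub_nonneg.2 hs1),
      mul_nonneg (mul_nonneg hs0 hs0) (sub_nonneg.2 hs1),
      mul_nonneg (mul_nonneg hs0 hn0) (sub_nonneg.2 hs1)]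
  have b4 : (r + 1) * S j r ≤ 0.9805 * (N ^ r * N) := by
    rw [Real.rpow_add_one hN0.ne'] at hu
    have := mul_le_mul_of_nonneg_left (b2.trans hi) (show 0 ≤ (r + 1) * r / 24 by positivity)
    nlinarith
  have ht : (j : ℝ) - 1 / 2 = N * (1 - 1 / N) := by field_simp; linarith
  have h1N : 0 < 1 - 1 / N := by rw [sub_pos, div_lt_one hN0]; linarith
  have b5 : 1 + (N - r - 1) / N ≤ C r * (1 - 1 / N) ^ r := by
    unfold C
    rw [← Real.mul_rpow (by positivity) h1N.le]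
    have := one_add_mul_self_le_rpow_one_add (s := (N - r - 1) / (r * N)) (p := r)
      (by rw [le_div_iff₀ (by positivity)]; nlinarith) (by linarith)
    have e1 : (1 + 1 / r) * (1 - 1 / N) = 1 + (N - r - 1) / (r * N) := by field_simp; ring
    have e2 : r * ((N - r - 1) / (r * N)) = (N - r - 1) / N := by field_simp
    rw [e1, ← e2]
    exact this
  have b6 : 120 / 121 * N ≤ (r + 1) * (1 + (N - r - 1) / N) := by
    have e : (r + 1) * (1 + (N - r - 1) / N) = (r + 1) * (2 * N - r - 1) / N := by field_simp; ring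
    rw [e, le_div_iff₀ hN0]
    have : (N - r - 1) ^ 2 ≤ 1 / 4 := by nlinarith
    nlinarith
  unfold a
  rw [ht, Real.mul_rpow hN0.le h1N.le, div_le_iff₀ (by positivity)]
  apply le_of_mul_le_mul_left _ (show 0 < r + 1 by linarith)
  refine b4.trans ?_
  have b7 := b6.trans (mul_le_mul_of_nonneg_left b5 (by linarith))
  have b8 := mul_le_mul_of_nonneg_left b7 hp.le
  nlinarith [mul_pos hp hN0]

end Pool.Agent.Lib.MP_819a4a_pr
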