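import Mathlib
import Pool.Agent.Lib.MP_819a4a_pr.Big

/-!
The main deterministic inequality.
-/

set_option autoImplicit false

namespace Pool.Agent.Lib.MP_819a4a_pr

theorem main_ineq {r : ℝ} (hr : 0 < r) (y m : ℕ) (hm : 1 ≤ m) :
    ∃ j : ℕ, 1 ≤ j ∧ j ≤ ⌈r⌉₊ ∧ (m : ℝ) * ((y : ℝ) + 1 / 2) ^ r * a j r ≤ S (y + m) r := by
  have hceil : ∀ n : ℕ, (n : ℝ) < r → n + 1 ≤ ⌈r⌉₊ := fun n hn => Nat.lt_ceil.2 hn
  have hpos : (0 : ℝ) ≤ (m : ℝ) * ((y : ℝ) + 1 / 2) ^ r := by positivity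
  rcases le_or_gt r 1 with h1 | h1
  · refine ⟨1, le_rfl, hceil 0 (by simpa using hr), ?_⟩
    have := small_r hr.le h1 y (y + m)
    refine le_trans (le_of_eq ?_) this
    rw [a_eq le_rfl]
    simp only [Finset.range_one, Finset.sum_singleton]
    rw [mul_assoc, ← Real.mul_rpow (by positivity) (by norm_num)]
    push_cast
    rw [mul_comm]
    congr 1
    · congr 1; ring
    · ring
  have h2c : 2 ≤ ⌈r⌉₊ := hceil 1 (by simpa using h1)
  rcases hm.eq_or_lt with rfl | hm2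
  · have e : ((1 : ℕ) : ℝ) * ((y : ℝ) + 1 / 2) ^ r * a (y + 1) r = S (y + 1) r := by
      unfold a
      push_cast
      rw [show (y : ℝ) + 1 - 1 / 2 = y + 1 / 2 by ring]
      field_simp
    rcases le_total (y + 1) ⌈r⌉₊ with h | h
    · exact ⟨y + 1, by omega, h, e.le⟩
    · exact ⟨⌈r⌉₊, by omega, le_rfl,
        (mul_le_mul_of_nonneg_left (a_mono hr h) hpos).trans e.le⟩
  rcases le_total (2 * y + 1) (3 * m) with hreg | hreg
  · exact ⟨2, by norm_num, h2c, by rw [a_two]; exact regime_one h1.le y m hreg⟩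
  rcases le_or_gt r 2 with h2 | h2
  · exact ⟨2, by norm_num, h2c, by rw [a_two]; exact regime_two_small h1.le h2 y m hm2 hreg⟩
  have h3c : 3 ≤ ⌈r⌉₊ := hceil 2 (by simpa using h2)
  have hN : (0 : ℝ) ≤ (((y + m : ℕ) : ℝ) + 1 / 2) ^ (r - 1) := by positivity
  have hC := (C_pos hr).le
  rcases le_or_gt r 3 with h3 | h3
  · have hl := lower23 h2.le h3 (y + m)
    have key : ∀ μ : ℝ, 0 ≤ μ → μ ≤ 1 / 64 → (r - 1) * r ≤ 96 * μ * (r + 1) →
        (m : ℝ) * ((y : ℝ) + 1 / 2) ^ r * (C r * (1 - 67 / 64 * μ)) ≤ S (y + m) r := by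
      intro μ a1 a2 a3
      apply C_bound hr a1 a2 y m hm2
      refine le_trans ?_ hl
      have : (r + 1) * ((r - 1) * r) / 24 ≤ 4 * μ * (r + 1) ^ 2 := by nlinarith
      have := mul_le_mul_of_nonneg_right this hN
      linarith
    rcases le_total r (41 / 20) with h4 | h4
    · refine ⟨2, by norm_num, h2c, le_trans ?_ (key 0.00736 (by norm_num) (by norm_num)
        (by nlinarith))⟩
      apply mul_le_mul_of_nonneg_left _ hpos
      exact (a_two_le h2.le h4).trans (mul_le_mul_of_nonneg_left (by norm_num) hC)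
    · refine ⟨3, by norm_num, h3c, le_trans ?_
        (key (0.00736 + (1 / 64 - 0.00736) * (20 / 19 * (r - 41 / 20))) (by nlinarith) (by nlinarith)
        (by nlinarith))⟩
      apply mul_le_mul_of_nonneg_left _ hpos
      exact (a_three_le h4 h3).trans (mul_le_mul_of_nonneg_left (by nlinarith) hC)
  have hl := lower3 h3.le (y + m)
  have key : (m : ℝ) * ((y : ℝ) + 1 / 2) ^ r * (C r * (1 - 67 / 64 * (1 / 96))) ≤ S (y + m) r := by
    apply C_bound hr (by norm_num) (by norm_num) y m hm2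
    refine le_trans ?_ hl
    have : (r + 1) * r / 24 ≤ 4 * (1 / 96) * (r + 1) ^ 2 := by nlinarith
    have := mul_le_mul_of_nonneg_right this hN
    linarith
  rcases le_or_gt r 4 with h4 | h4
  · refine ⟨4, by norm_num, hceil 3 (by simpa using h3), le_trans ?_ key⟩
    apply mul_le_mul_of_nonneg_left _ hpos
    exact (a_four_le h3.le h4).trans (mul_le_mul_of_nonneg_left (by norm_num) hC)
  · refine ⟨⌈r⌉₊, by omega, le_rfl, le_trans ?_ key⟩
    apply mul_le_mul_of_nonneg_left _ hpos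
    refine (a_large (hceil 4 (by simpa using h4)) ?_ (Nat.le_ceil r)).trans
      (mul_le_mul_of_nonneg_left (by norm_num) hC)
    linarith [Nat.ceil_lt_add_one hr.le]

theorem g_nonneg {j : ℕ} (hj : 1 ≤ j) (r : ℝ) : 0 ≤ g j r := by
  have : (1 : ℝ) ≤ j := by exact_mod_cast hj
  exact div_nonneg (Real.rpow_nonneg (by linarith) _) (S_nonneg _ _)

theorem g_mul_a {j : ℕ} (hj : 1 ≤ j) (r : ℝ) : g j r * a j r = 2 ^ r := by
  have h1 : (1 : ℝ) ≤ j := by exact_mod_cast hj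
  have h2 : (0 : ℝ) < j - 1 / 2 := by linarith
  have hS := S_pos hj r
  unfold g a
  rw [show 2 * (j : ℝ) - 1 = 2 * (j - 1 / 2) by ring, Real.mul_rpow (by norm_num) h2.le]
  have := Real.rpow_pos_of_pos h2 r
  generalize ((j : ℝ) - 1 / 2) ^ r = w at this
  field_simp

theorem exists_best {r : ℝ} (hr : 0 < r) :
    ∃ j : ℕ, 1 ≤ j ∧ j ≤ ⌈r⌉₊ ∧ ∀ y m : ℕ, (2 * (y : ℝ) + 1) ^ r * m ≤ g j r * S (y + m) r := by
  have hc : 1 ≤ ⌈r⌉₊ := Nat.lt_ceil.2 (by simpa using hr)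
  obtain ⟨j, hj, hmax⟩ := Finset.exists_max_image (Finset.Icc 1 ⌈r⌉₊) (fun j => g j r)
    ⟨1, Finset.mem_Icc.2 ⟨le_rfl, hc⟩⟩
  rw [Finset.mem_Icc] at hj
  refine ⟨j, hj.1, hj.2, fun y m => ?_⟩
  rcases Nat.eq_zero_or_pos m with rfl | hm
  · simpa using mul_nonneg (g_nonneg hj.1 r) (S_nonneg _ _)
  obtain ⟨i, hi1, hi2, hi⟩ := main_ineq hr y m hm
  have h1 := mul_le_mul_of_nonneg_left hi (g_nonneg hi1 r)
  have h2 := mul_le_mul_of_nonneg_right (hmax i (Finset.mem_Icc.2 ⟨hi1, hi2⟩)) (S_nonneg (y + m) r)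
  refine le_trans (le_of_eq ?_) (h1.trans h2)
  rw [show 2 * (y : ℝ) + 1 = 2 * (y + 1 / 2) by ring, Real.mul_rpow (by norm_num) (by positivity),
    ← g_mul_a hi1 r]
  ring

end Pool.Agent.Lib.MP_819a4a_pr
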