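import Mathlib
import Pool.Agent.Lib.MP_819a4a_pr.Ineq

/-!
Reduction of the Markov chain problem to the deterministic inequality.
-/

set_option autoImplicit false

namespace Pool.Agent.Lib.MP_819a4a_pr

open scoped ENNReal
open Filter Topology

noncomputable def E {α : Type} (p : PMF α) (f : α → ℝ≥0∞) : ℝ≥0∞ := ∑' a, p a * f a

theorem E_bind {α β : Type} (p : PMF α) (q : α → PMF β) (f : β → ℝ≥0∞) :
    E (p.bind q) f = E p fun a => E (q a) f := by
  unfold E
  simp only [PMF.bind_apply]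
  simp only [← ENNReal.tsum_mul_right, ← ENNReal.tsum_mul_left, mul_assoc]
  exact ENNReal.tsum_comm

theorem E_pure {α : Type} (a : α) (f : α → ℝ≥0∞) : E (PMF.pure a) f = f a := by
  unfold E
  rw [tsum_eq_single a]
  · simp
  · intro b hb
    simp [PMF.pure_apply, hb]

theorem E_map {α β : Type} (p : PMF α) (h : α → β) (f : β → ℝ≥0∞) :
    E (p.map h) f = E p fun a => f (h a) := by
  rw [PMF.map, E_bind]
  simp [E_pure]

theorem E_coin (p : ℝ≥0∞) (hp : p ≤ 1) (f : Bool → ℝ≥0∞) :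
    E (coin p hp) f = p * f true + (1 - p) * f false := by
  unfold E coin
  rw [tsum_fintype]
  simp

theorem lintegral_eq_E {α : Type} [Countable α] [MeasurableSpace α] [MeasurableSingletonClass α]
    (p : PMF α) (f : α → ℝ≥0∞) : ∫⁻ a, f a ∂p.toMeasure = E p f := by
  rw [MeasureTheory.lintegral_countable']
  unfold E
  congr 1
  funext a
  rw [PMF.toMeasure_apply_singleton _ _ (measurableSet_singleton a), mul_comm]

theorem accept_mul {π φ : PMF ℤ} (hφ : ∀ z, φ z = φ (-z)) (x z : ℤ) :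
    π x * (φ z * accept π φ x z) = φ z * min (π x) (π (x + z)) := by
  unfold accept
  split_ifs with h
  · rcases mul_eq_zero.1 h with h | h <;> simp [h]
  · have h' : π x * φ z ≠ ⊤ := ENNReal.mul_ne_top (π.apply_ne_top x) (φ.apply_ne_top z)
    rw [← mul_assoc, mul_min, mul_min, mul_one, ENNReal.mul_div_cancel h h', ← hφ z,
      mul_comm (π x), mul_comm (π (x + z))]

theorem jump_eq {r : ℝ} (hr : 0 < r) {π φ : PMF ℤ} (hφ : ∀ z, φ z = φ (-z)) :
    jumpMoment r π φ =
      ∑' z, φ z * (ENNReal.ofReal (|(z : ℝ)| ^ r) * ∑' x, min (π x) (π (x + z))) := by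
  unfold jumpMoment joint step
  rw [lintegral_eq_E, E_bind]
  simp only [E_map, E_bind, E_coin]
  simp only [Bool.cond_true, Bool.cond_false, sub_self, abs_zero, Real.zero_rpow hr.ne',
    ENNReal.ofReal_zero, mul_zero, add_zero, Int.cast_add, add_sub_cancel_left]
  unfold E
  simp only [← ENNReal.tsum_mul_left]
  rw [ENNReal.tsum_comm]
  congr 1
  funext z
  congr 1
  funext x
  rw [← mul_assoc (φ z), ← mul_assoc (π x), accept_mul hφ]
  ring

theorem abs_eq_E (r : ℝ) (π : PMF ℤ) :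
    absMoment r π = ∑' x, π x * ENNReal.ofReal (|(x : ℝ)| ^ r) := by
  unfold absMoment
  rw [lintegral_eq_E]
  rfl

theorem cnt_eq (k : ℕ) (z : ℤ) :
    (∑' x : ℤ, if x.natAbs ≤ k ∧ (x + z).natAbs ≤ k then (1 : ℝ≥0∞) else 0) =
      ((2 * k + 1 - z.natAbs : ℕ) : ℝ≥0∞) := by
  have h : ∀ x : ℤ, (x.natAbs ≤ k ∧ (x + z).natAbs ≤ k) ↔
      x ∈ Finset.Icc (max (-(k : ℤ)) (-k - z)) (min (k : ℤ) (k - z)) := by
    intro x
    rw [Finset.mem_Icc]
    omega
  simp only [h]
  rw [tsum_eq_sum (s := Finset.Icc (max (-(k : ℤ)) (-k - z)) (min (k : ℤ) (k - z)))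
    (fun x hx => if_neg hx), Finset.sum_congr rfl (fun x hx => if_pos hx)]
  simp only [Finset.sum_const, Int.card_Icc, nsmul_eq_mul, mul_one]
  congr 1
  omega

theorem mom_eq {r : ℝ} (hr : 0 < r) (k : ℕ) :
    (∑' x : ℤ, (if x.natAbs ≤ k then (1 : ℝ≥0∞) else 0) * ENNReal.ofReal (|(x : ℝ)| ^ r)) =
      ENNReal.ofReal (2 * S k r) := by
  have h : ∀ x : ℤ, x.natAbs ≤ k ↔ x ∈ Finset.Icc (-(k : ℤ)) k := by
    intro x
    rw [Finset.mem_Icc]
    omega
  simp only [h]
  rw [tsum_eq_sum (s := Finset.Icc (-(k : ℤ)) k) (fun x hx => by simp [hx]),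
    Finset.sum_congr rfl (fun x hx => by rw [if_pos hx, one_mul]),
    ← ENNReal.ofReal_sum_of_nonneg (fun _ _ => by positivity)]
  congr 1
  clear h
  induction k with
  | zero => simp [Real.zero_rpow hr.ne']
  | succ k ih =>
    have : Finset.Icc (-((k + 1 : ℕ) : ℤ)) ((k + 1 : ℕ) : ℤ) =
        insert (-((k : ℤ) + 1)) (insert ((k : ℤ) + 1) (Finset.Icc (-(k : ℤ)) k)) := by
      ext x
      simp only [Finset.mem_Icc, Finset.mem_insert]
      omega
    rw [this, Finset.sum_insert (by simp only [Finset.mem_Icc, Finset.mem_insert]; omega),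
      Finset.sum_insert (by simp only [Finset.mem_Icc]; omega), ih, S_succ]
    push_cast
    rw [abs_neg, abs_of_nonneg (by positivity)]
    ring

theorem layer {π : PMF ℤ} (h2 : ∀ x y : ℤ, 0 ≤ x → x ≤ y → π y ≤ π x) :
    ∃ d : ℕ → ℝ≥0∞, ∀ n : ℕ, π n = ∑' k, d k * if n ≤ k then 1 else 0 := by
  refine ⟨fun k => π k - π (k + 1 : ℕ), fun n => ?_⟩
  have hz : Tendsto (fun N : ℕ => π (N : ℤ)) atTop (𝓝 0) := by
    have := ENNReal.tendsto_cofinite_zero_of_tsum_ne_top (f := fun x : ℤ => π x)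
      (by rw [π.tsum_coe]; exact ENNReal.one_ne_top)
    rw [← Nat.cofinite_eq_atTop]
    exact this.comp (Nat.cast_injective (R := ℤ)).tendsto_cofinite
  have hpart : ∀ N : ℕ, n ≤ N → ∑ k ∈ Finset.range N, ((π k - π (k + 1 : ℕ)) *
      if n ≤ k then 1 else 0) + π N = π n := by
    intro N hN
    induction N, hN using Nat.le_induction with
    | base =>
      rw [Finset.sum_eq_zero, zero_add]
      intro k hk
      simp [not_le.2 (Finset.mem_range.1 hk)]
    | succ N hN ih =>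
      rw [Finset.sum_range_succ, if_pos hN, mul_one, add_assoc,
        tsub_add_cancel_of_le (h2 _ _ (by omega) (by omega)), ih]
  have t1 := (ENNReal.tendsto_nat_tsum fun k : ℕ => (π k - π (k + 1 : ℕ)) *
    if n ≤ k then 1 else 0).add hz
  rw [add_zero] at t1
  refine tendsto_nhds_unique (tendsto_const_nhds.congr' ?_) t1
  filter_upwards [eventually_ge_atTop n] with N hN
  exact (hpart N hN).symm

theorem upper_bound {r G : ℝ} (hr : 0 < r) (hG0 : 0 ≤ G)
    (hG : ∀ y m : ℕ, (2 * (y : ℝ) + 1) ^ r * m ≤ G * S (y + m) r) {π φ : PMF ℤ}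
    (h : Admissible r π φ) : jumpMoment r π φ ≤ ENNReal.ofReal G * absMoment r π := by
  obtain ⟨h1, h2, -, -, h5, h6⟩ := h
  obtain ⟨d, hd⟩ := layer h2
  have habs : ∀ x : ℤ, π x = π (x.natAbs : ℕ) := by
    intro x
    rcases Int.natAbs_eq x with h | h
    · rw [← h]
    · rw [h1 (x.natAbs : ℕ), ← h]
  have hmin : ∀ x y : ℤ, min (π x) (π y) =
      ∑' k, d k * if x.natAbs ≤ k ∧ y.natAbs ≤ k then 1 else 0 := by
    intro x y
    rw [habs x, habs y]
    rcases le_total x.natAbs y.natAbs with h | h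
    · rw [min_eq_right (h2 _ _ (by omega) (by omega)), hd]
      congr 1
      funext k
      congr 1
      exact if_congr (by omega) rfl rfl
    · rw [min_eq_left (h2 _ _ (by omega) (by omega)), hd]
      congr 1
      funext k
      congr 1
      exact if_congr (by omega) rfl rfl
  have hA : absMoment r π = ∑' k, d k * ENNReal.ofReal (2 * S k r) := by
    rw [abs_eq_E]
    simp only [← mom_eq hr, ← ENNReal.tsum_mul_left]
    rw [ENNReal.tsum_comm]
    congr 1
    funext x
    rw [habs x, hd, ← ENNReal.tsum_mul_right]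
    simp only [mul_assoc]
  rw [jump_eq hr h5]
  have hz : ∀ z : ℤ, φ z * (ENNReal.ofReal (|(z : ℝ)| ^ r) * ∑' x, min (π x) (π (x + z))) ≤
      φ z * (ENNReal.ofReal G * absMoment r π) := by
    intro z
    by_cases hφ : φ z = 0
    · simp [hφ]
    refine mul_le_mul' le_rfl ?_
    obtain ⟨y, hy⟩ : Odd z.natAbs := Int.natAbs_odd.2 (h6 z hφ)
    have hzr : |(z : ℝ)| = 2 * (y : ℝ) + 1 := by
      rw [← Int.cast_abs, Int.abs_eq_natAbs, hy]
      push_cast; ring
    rw [tsum_congr (fun x => hmin x (x + z)), ENNReal.tsum_comm, hA, ← ENNReal.tsum_mul_left, ← ENNReal.tsum_mul_left]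
    apply ENNReal.tsum_le_tsum
    intro k
    rw [ENNReal.tsum_mul_left, cnt_eq, hy, hzr, mul_left_comm, mul_left_comm (ENNReal.ofReal G)]
    refine mul_le_mul' le_rfl ?_
    rcases le_total k y with hk | hk
    · rw [show 2 * k + 1 - (2 * y + 1) = 0 by omega]
      simp
    · obtain ⟨m, rfl⟩ := Nat.exists_eq_add_of_le hk
      rw [show 2 * (y + m) + 1 - (2 * y + 1) = 2 * m by omega, ← ENNReal.ofReal_natCast,
        ← ENNReal.ofReal_mul (by positivity), ← ENNReal.ofReal_mul hG0]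
      apply ENNReal.ofReal_le_ofReal
      have := hG y m
      push_cast
      linarith
  refine (ENNReal.tsum_le_tsum hz).trans ?_
  rw [ENNReal.tsum_mul_right, φ.tsum_coe, one_mul]

theorem lower_bound {r : ℝ} (hr : 0 < r) {j : ℕ} (hj : 1 ≤ j) :
    ENNReal.ofReal (g j r) ≤ s r := by
  classical
  let π : PMF ℤ := PMF.uniformOfFinset (Finset.Icc (-(j : ℤ)) j) ⟨0, by simp⟩
  let φ : PMF ℤ := PMF.uniformOfFinset {2 * (j : ℤ) - 1, -(2 * (j : ℤ) - 1)} ⟨_, Finset.mem_insert_self _ _⟩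
  let c : ℝ≥0∞ := ((Finset.Icc (-(j : ℤ)) j).card : ℝ≥0∞)⁻¹
  have hc0 : c ≠ 0 := ENNReal.inv_ne_zero.2 (ENNReal.natCast_ne_top _)
  have hct : c ≠ ⊤ := ENNReal.inv_ne_top.2 (by
    rw [Nat.cast_ne_zero, ← Nat.pos_iff_ne_zero, Finset.card_pos]
    exact ⟨0, by simp⟩)
  have hπ : ∀ x : ℤ, π x = c * if x.natAbs ≤ j then 1 else 0 := by
    intro x
    by_cases hx : x.natAbs ≤ j
    · rw [if_pos hx, mul_one]
      exact PMF.uniformOfFinset_apply_of_mem _ (by rw [Finset.mem_Icc]; omega)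
    · rw [if_neg hx, mul_zero]
      exact PMF.uniformOfFinset_apply_of_notMem _ (by rw [Finset.mem_Icc]; omega)
  have hφ : ∀ z : ℤ, φ z ≠ 0 ↔ z.natAbs = 2 * j - 1 := by
    intro z
    rw [← PMF.mem_support_iff, PMF.mem_support_uniformOfFinset_iff]
    simp only [Finset.mem_insert, Finset.mem_singleton]
    omega
  have hφs : ∀ z, φ z = φ (-z) := by
    intro z
    by_cases hz : z.natAbs = 2 * j - 1
    · rw [PMF.uniformOfFinset_apply_of_mem, PMF.uniformOfFinset_apply_of_mem] <;>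
        simp only [Finset.mem_insert, Finset.mem_singleton] <;> omega
    · rw [PMF.uniformOfFinset_apply_of_notMem, PMF.uniformOfFinset_apply_of_notMem] <;>
        simp only [Finset.mem_insert, Finset.mem_singleton] <;> omega
  have hA : absMoment r π = c * ENNReal.ofReal (2 * S j r) := by
    rw [abs_eq_E, ← mom_eq hr, ← ENNReal.tsum_mul_left]
    simp only [hπ, mul_assoc]
  have hadm : Admissible r π φ := by
    refine ⟨fun x => by rw [hπ, hπ, Int.natAbs_neg], fun x y hx hxy => ?_, fun x hx => ?_, ?_, hφs,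
      fun z hz => ?_⟩
    · rw [hπ, hπ]
      gcongr
      split_ifs with a b
      · exact le_rfl
      · omega
      · exact zero_le_one
      · exact le_rfl
    · have a0 : π 0 ≠ 0 := by rw [hπ]; simpa using hc0
      have a1 : π 1 ≠ 0 := by rw [hπ]; simpa [hj] using hc0
      rw [hx, PMF.pure_apply] at a0 a1
      have b0 : (0 : ℤ) = x := by by_contra h; simp [h] at a0
      have b1 : (1 : ℤ) = x := by by_contra h; simp [h] at a1
      omega
    · rw [hA]
      exact ENNReal.mul_lt_top hct.lt_top ENNReal.ofReal_lt_top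
    · rw [← Int.natAbs_odd, (hφ z).1 hz]
      exact ⟨j - 1, by omega⟩
  have hJ : jumpMoment r π φ = c * ENNReal.ofReal (2 * (2 * (j : ℝ) - 1) ^ r) := by
    rw [jump_eq hr hφs]
    have : ∀ z : ℤ, φ z * (ENNReal.ofReal (|(z : ℝ)| ^ r) * ∑' x, min (π x) (π (x + z))) =
        φ z * (c * ENNReal.ofReal (2 * (2 * (j : ℝ) - 1) ^ r)) := by
      intro z
      by_cases hz : φ z = 0
      · simp [hz]
      have hy := (hφ z).1 hz
      have hzr : |(z : ℝ)| = 2 * (j : ℝ) - 1 := by
        rw [← Int.cast_abs, Int.abs_eq_natAbs, hy, Nat.cast_sub (by omega)]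
        push_cast; ring
      have hm : ∀ x : ℤ, min (π x) (π (x + z)) =
          c * if x.natAbs ≤ j ∧ (x + z).natAbs ≤ j then 1 else 0 := by
        intro x
        rw [hπ, hπ]
        by_cases a : x.natAbs ≤ j <;> by_cases b : (x + z).natAbs ≤ j <;> simp [a, b]
      simp only [hm]
      rw [ENNReal.tsum_mul_left, cnt_eq, hy, hzr, show 2 * j + 1 - (2 * j - 1) = 2 by omega,
        ENNReal.ofReal_mul (by norm_num)]
      simp only [Nat.cast_ofNat, ENNReal.ofReal_ofNat]
      ring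
    simp only [this]
    rw [ENNReal.tsum_mul_right, φ.tsum_coe, one_mul]
  refine le_trans (le_of_eq ?_) (le_iSup_of_le π (le_iSup_of_le φ (le_iSup_of_le hadm le_rfl)))
  have hS := S_pos hj r
  rw [hJ, hA, ENNReal.mul_div_mul_left _ _ hc0 hct, ← ENNReal.ofReal_div_of_pos (by positivity)]
  congr 1
  unfold g
  field_simp

theorem main_theorem {r : ℝ} (hr : 0 < r) :
    ∃ k : ℕ, 1 ≤ k ∧ k ≤ ⌈r⌉₊ ∧ s r = ENNReal.ofReal (g k r) := by
  obtain ⟨j, h1, h2, h3⟩ := exists_best hr
  refine ⟨j, h1, h2, le_antisymm ?_ (lower_bound hr h1)⟩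
  refine iSup_le fun π => iSup_le fun φ => iSup_le fun h => ?_
  exact ENNReal.div_le_of_le_mul (upper_bound hr (g_nonneg h1 r) h3 h)

end Pool.Agent.Lib.MP_819a4a_pr
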